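import Pool.Agent.H45.VM.Defs

/-!
# Binary forms: basic rules

PROOF. All are computations with the finite sums.
* `bf_map`: `map_sum`, `map_mul`, `map_pow`, `AlgHom.commutes`.
* `bf_one`: `Polynomial.aeval_eq_sum_range'` (all degrees `< d + 1`), `one_pow`.
* `bf_inf`: only the term `i = d` survives (`0 ^ (d - i) = 0` for `i < d`).
* `bf_smul`, `bf1_smul`, `bf2_smul`: termwise, `c ^ i * c ^ (d - i) = c ^ d` for `i ≤ d`;
  in `bf1` the term `i = 0` vanishes, and `c ^ (i - 1) * c ^ (d - i) = c ^ (d - 1)` for `1 ≤ i ≤ d`; in `bf2` the term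
  `i = d` vanishes.
* `bf_euler`: termwise, `a * (i a ^ (i - 1)) = i a ^ i` and `b * ((d - i) b ^ (d - i - 1)) = (d - i) b ^ (d - i)`.
* `bf1_one`: `derivative P = ∑ i P_i X ^ (i - 1)` (`Polynomial.derivative_eval`/`derivative_apply`, or compare with `P` written as
  the sum of its monomials up to `d`: `Polynomial.as_sum_range'`).
* `bf2_inf`: only `i = d - 1` survives (`i = d`: factor `0`; `i < d - 1`: `0 ^ (d - i - 1) = 0`).
-/

namespace Pool.Agent.H45.VM

open Finset Polynomial Pool.Agent.H35.VQ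

variable {k R S : Type} [Field k] [CommRing R] [Algebra k R] [CommRing S] [Algebra k S]

theorem bf_map (φ : R →ₐ[k] S) (d : ℕ) (P : k[X]) (a b : R) :
    φ (bf d P a b) = bf d P (φ a) (φ b) := by
  unfold bf
  rw [map_sum]
  refine Finset.sum_congr rfl fun i _ => ?_
  rw [map_mul, map_mul, map_pow, map_pow, AlgHom.commutes]

theorem bf1_map (φ : R →ₐ[k] S) (d : ℕ) (P : k[X]) (a b : R) :
    φ (bf1 d P a b) = bf1 d P (φ a) (φ b) := by
  unfold bf1
  rw [map_sum]
  refine Finset.sum_congr rfl fun i _ => ?_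
  rw [map_mul, map_mul, map_mul, map_pow, map_pow, AlgHom.commutes, map_natCast]

theorem bf2_map (φ : R →ₐ[k] S) (d : ℕ) (P : k[X]) (a b : R) :
    φ (bf2 d P a b) = bf2 d P (φ a) (φ b) := by
  unfold bf2
  rw [map_sum]
  refine Finset.sum_congr rfl fun i _ => ?_
  rw [map_mul, map_mul, map_mul, map_pow, map_pow, AlgHom.commutes, map_natCast]

theorem bf_one {d : ℕ} {P : k[X]} (hP : P.natDegree ≤ d) (x : R) : bf d P x 1 = aeval x P := by
  rw [Polynomial.aeval_eq_sum_range' (Nat.lt_succ_of_le hP) x]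
  unfold bf
  refine Finset.sum_congr rfl fun i _ => ?_
  rw [one_pow, mul_one, Algebra.smul_def]

theorem bf_inf (d : ℕ) (P : k[X]) : bf d P (1 : R) 0 = algebraMap k R (P.coeff d) := by
  unfold bf
  rw [Finset.sum_eq_single d]
  · rw [Nat.sub_self, pow_zero, mul_one, one_pow, mul_one]
  · intro i hi hne
    have h1 : d - i ≠ 0 := by
      have := Finset.mem_range.1 hi
      omega
    rw [zero_pow h1, mul_zero]
  · intro h
    exact absurd (Finset.mem_range.2 (Nat.lt_succ_self d)) h

theorem bf_smul (d : ℕ) (P : k[X]) (c a b : R) : bf d P (c * a) (c * b) = c ^ d * bf d P a b := by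
  unfold bf
  rw [Finset.mul_sum]
  refine Finset.sum_congr rfl fun i hi => ?_
  obtain ⟨j, rfl⟩ := Nat.exists_eq_add_of_le (Nat.lt_succ_iff.1 (Finset.mem_range.1 hi))
  rw [Nat.add_sub_cancel_left, mul_pow, mul_pow, pow_add]
  ring

theorem bf1_smul (d : ℕ) (P : k[X]) (c a b : R) :
    bf1 d P (c * a) (c * b) = c ^ (d - 1) * bf1 d P a b := by
  unfold bf1
  rw [Finset.mul_sum]
  refine Finset.sum_congr rfl fun i hi => ?_
  obtain ⟨j, rfl⟩ := Nat.exists_eq_add_of_le (Nat.lt_succ_iff.1 (Finset.mem_range.1 hi))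
  rcases i with _ | i
  · simp
  · rw [Nat.add_sub_cancel_left, Nat.add_sub_cancel, mul_pow, mul_pow]
    have h1 : i + 1 + j - 1 = i + j := by omega
    rw [h1, pow_add]
    ring

theorem bf2_smul (d : ℕ) (P : k[X]) (c a b : R) :
    bf2 d P (c * a) (c * b) = c ^ (d - 1) * bf2 d P a b := by
  unfold bf2
  rw [Finset.mul_sum]
  refine Finset.sum_congr rfl fun i hi => ?_
  obtain ⟨j, rfl⟩ := Nat.exists_eq_add_of_le (Nat.lt_succ_iff.1 (Finset.mem_range.1 hi))
  rcases j with _ | j
  · simp
  · rw [Nat.add_sub_cancel_left, Nat.add_sub_cancel, mul_pow, mul_pow]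
    have h1 : i + (j + 1) - 1 = i + j := by omega
    rw [h1, pow_add]
    ring

theorem bf_euler (d : ℕ) (P : k[X]) (a b : R) :
    a * bf1 d P a b + b * bf2 d P a b = d * bf d P a b := by
  unfold bf1 bf2 bf
  rw [Finset.mul_sum, Finset.mul_sum, Finset.mul_sum, ← Finset.sum_add_distrib]
  refine Finset.sum_congr rfl fun i hi => ?_
  obtain ⟨j, rfl⟩ := Nat.exists_eq_add_of_le (Nat.lt_succ_iff.1 (Finset.mem_range.1 hi))
  rw [Nat.add_sub_cancel_left]
  have h1 : a * ((i : R) * a ^ (i - 1)) = i * a ^ i := by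
    rcases i with _ | i
    · simp
    · rw [Nat.add_sub_cancel]
      ring
  have h2 : b * ((j : R) * b ^ (j - 1)) = j * b ^ j := by
    rcases j with _ | j
    · simp
    · rw [Nat.add_sub_cancel]
      ring
  calc a * (algebraMap k R (P.coeff i) * ((i : R) * a ^ (i - 1)) * b ^ j) +
        b * (algebraMap k R (P.coeff i) * a ^ i * ((j : R) * b ^ (j - 1)))
      = algebraMap k R (P.coeff i) * (a * ((i : R) * a ^ (i - 1))) * b ^ j +
        algebraMap k R (P.coeff i) * a ^ i * (b * ((j : R) * b ^ (j - 1))) := by ring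
    _ = ((i + j : ℕ) : R) * (algebraMap k R (P.coeff i) * a ^ i * b ^ j) := by
        rw [h1, h2]
        push_cast
        ring

theorem bf1_one {d : ℕ} {P : k[X]} (hP : P.natDegree ≤ d) (x : R) :
    bf1 d P x 1 = aeval x (derivative P) := by
  have h1 : (derivative P).natDegree < d + 1 := by
    have := Polynomial.natDegree_derivative_le P
    omega
  have h2 : P.coeff (d + 1) = 0 := Polynomial.coeff_eq_zero_of_natDegree_lt (by omega)
  rw [Polynomial.aeval_eq_sum_range' h1 x]
  unfold bf1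
  rw [Finset.sum_range_succ', Finset.sum_range_succ, Polynomial.coeff_derivative, h2]
  simp only [Nat.cast_zero, zero_mul, mul_zero, zero_smul, add_zero]
  refine Finset.sum_congr rfl fun i _ => ?_
  rw [Polynomial.coeff_derivative, one_pow, mul_one, Nat.add_sub_cancel, Algebra.smul_def]
  rw [map_mul, map_add, map_natCast, map_one]
  push_cast
  ring

theorem bf2_inf {d : ℕ} (hd : 1 ≤ d) (P : k[X]) :
    bf2 d P (1 : R) 0 = algebraMap k R (P.coeff (d - 1)) := by
  unfold bf2
  rw [Finset.sum_eq_single (d - 1)]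
  · have h1 : d - (d - 1) = 1 := by omega
    rw [h1]
    simp
  · intro i hi hne
    by_cases h : i = d
    · subst h
      simp
    · have h1 : d - i - 1 ≠ 0 := by
        have := Finset.mem_range.1 hi
        omega
      rw [zero_pow h1, mul_zero, mul_zero]
  · intro h
    exact absurd (Finset.mem_range.2 (by omega)) h

end Pool.Agent.H45.VM
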