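import Pool.Agent.H45.VM.BfA

/-!
# Binary forms of polynomials

PROOF. `bf d P U V = ∑ i ≤ d, P_i U ^ i V ^ (d - i)` in `k[X]` (`algebraMap k k[X] = C`).
* `deriv_bf`: termwise by the product rule, `derivative (U ^ i) = i U ^ (i - 1) U'` (`Polynomial.derivative_pow`,
  `map_natCast`).
* `natDegree_bf`: each term has degree at most `n i + n (d - i) = n d` (`natDegree_sum_le_of_forall_le`, `natDegree_mul_le`,
  `natDegree_pow_le`).
* `coeff_bf`: let `Ũ = U.reflect n`, `Ṽ = V.reflect n` (`Polynomial.reflect_mul`, degrees at most `n`); then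
  `(bf d P U V).reflect (n d) = bf d P Ũ Ṽ` (`reflect` is additive and multiplicative, `reflect_C_mul`), the coefficient of
  `X ^ 0` is the value at `0` (`coeff_zero_eq_eval_zero`), `Ũ.eval 0 = U.coeff n`, and
  `(reflect N f).coeff 0 = f.coeff N` (`Polynomial.coeff_reflect`, `revAt`); evaluate with `bf_map` for the algebra homomorphism
  `aeval 0`. Alternatively: coefficient `n d` of the product of two polynomials of degrees at most `n i` and `n (d - i)`
  (`Polynomial.coeff_mul_degree_add_degree` style lemmas: `coeff_mul_of_natDegree_le`, `coeff_pow_of_natDegree_le`).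
* `coeff_bf'`: the coefficient of `X ^ 1` of the reflected polynomial is the value at `0` of the derivative
  (`Polynomial.coeff_one ..`, `derivative_eval_zero`/`coeff_derivative`), and `deriv_bf` gives it.
-/

namespace Pool.Agent.H45.VM

open Finset Polynomial Pool.Agent.H35.VQ

variable {k : Type} [Field k]

theorem deriv_bf (d : ℕ) (P U V : k[X]) :
    derivative (bf d P U V) = bf1 d P U V * derivative U + bf2 d P U V * derivative V := by
  unfold bf bf1 bf2
  rw [derivative_sum, sum_mul, sum_mul, ← sum_add_distrib]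
  refine sum_congr rfl fun i _ => ?_
  rw [algebraMap_eq, derivative_mul, derivative_mul, derivative_C, derivative_pow, derivative_pow,
    C_eq_natCast, C_eq_natCast]
  ring

theorem natDegree_bf {n : ℕ} (d : ℕ) (P : k[X]) {U V : k[X]} (hU : U.natDegree ≤ n)
    (hV : V.natDegree ≤ n) : (bf d P U V).natDegree ≤ n * d := by
  unfold bf
  refine natDegree_sum_le_of_forall_le _ _ fun i hi => ?_
  have hi' : i ≤ d := Nat.lt_succ_iff.1 (mem_range.1 hi)
  rw [algebraMap_eq, mul_assoc]
  refine (natDegree_C_mul_le _ _).trans (natDegree_mul_le.trans ?_)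
  have h1 : (U ^ i).natDegree ≤ i * n := natDegree_pow_le_of_le i hU
  have h2 : (V ^ (d - i)).natDegree ≤ (d - i) * n := natDegree_pow_le_of_le (d - i) hV
  have h3 : i * n + (d - i) * n = n * d := by
    rw [← add_mul, Nat.add_sub_cancel' hi', mul_comm]
  omega

private lemma bfb_pow {n : ℕ} {U : k[X]} (hU : U.natDegree ≤ n) (i : ℕ) :
    reflect (n * i) (U ^ i) = reflect n U ^ i := by
  induction i with
  | zero =>
    rw [pow_zero, pow_zero, mul_zero]
    have h := reflect_monomial (R := k) 0 0
    rw [pow_zero] at h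
    rw [h]
    simp
  | succ i ih =>
    have h1 : (U ^ i).natDegree ≤ n * i := by
      rw [mul_comm]
      exact natDegree_pow_le_of_le i hU
    rw [pow_succ, pow_succ, Nat.mul_succ, reflect_mul _ _ h1 hU, ih]

private lemma bfb_sum (N : ℕ) (s : Finset ℕ) (f : ℕ → k[X]) :
    reflect N (∑ i ∈ s, f i) = ∑ i ∈ s, reflect N (f i) := by
  classical
  induction s using Finset.induction_on with
  | empty => simp
  | insert a s ha ih => rw [sum_insert ha, sum_insert ha, reflect_add, ih]

private lemma bfb_reflect {n : ℕ} (d : ℕ) (P : k[X]) {U V : k[X]} (hU : U.natDegree ≤ n)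
    (hV : V.natDegree ≤ n) :
    reflect (n * d) (bf d P U V) = bf d P (reflect n U) (reflect n V) := by
  unfold bf
  rw [bfb_sum]
  refine sum_congr rfl fun i hi => ?_
  have hi' : i ≤ d := Nat.lt_succ_iff.1 (mem_range.1 hi)
  have h1 : (U ^ i).natDegree ≤ n * i := by
    rw [mul_comm]
    exact natDegree_pow_le_of_le i hU
  have h2 : (V ^ (d - i)).natDegree ≤ n * (d - i) := by
    rw [mul_comm]
    exact natDegree_pow_le_of_le (d - i) hV
  have h3 : n * d = n * i + n * (d - i) := by
    rw [← mul_add, Nat.add_sub_cancel' hi']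
  rw [algebraMap_eq, mul_assoc, mul_assoc, reflect_C_mul, h3, reflect_mul _ _ h1 h2, bfb_pow hU,
    bfb_pow hV]

private lemma bfb_coeff (N : ℕ) (f : k[X]) : (reflect N f).eval 0 = f.coeff N := by
  rw [← coeff_zero_eq_eval_zero, coeff_reflect, revAt_le (Nat.zero_le _), Nat.sub_zero]

private lemma bfb_coeff' {N : ℕ} (hN : 1 ≤ N) (f : k[X]) :
    (derivative (reflect N f)).eval 0 = f.coeff (N - 1) := by
  rw [← coeff_zero_eq_eval_zero, coeff_derivative, coeff_reflect, zero_add, revAt_le hN]
  simp

theorem coeff_bf {n : ℕ} (d : ℕ) (P : k[X]) {U V : k[X]} (hU : U.natDegree ≤ n)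
    (hV : V.natDegree ≤ n) :
    (bf d P U V).coeff (n * d) = bf d P (U.coeff n) (V.coeff n) := by
  rw [← bfb_coeff, bfb_reflect d P hU hV]
  have h := bf_map (aeval (0 : k)) d P (reflect n U) (reflect n V)
  rw [coe_aeval_eq_eval] at h
  rw [h, bfb_coeff, bfb_coeff]

theorem coeff_bf' {n d : ℕ} (hn : 1 ≤ n) (hd : 1 ≤ d) (P : k[X]) {U V : k[X]}
    (hU : U.natDegree ≤ n) (hV : V.natDegree ≤ n) :
    (bf d P U V).coeff (n * d - 1) = bf1 d P (U.coeff n) (V.coeff n) * U.coeff (n - 1) +
      bf2 d P (U.coeff n) (V.coeff n) * V.coeff (n - 1) := by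
  have hnd : 1 ≤ n * d := Nat.mul_pos hn hd
  rw [← bfb_coeff' hnd, bfb_reflect d P hU hV, deriv_bf, eval_add, eval_mul, eval_mul,
    bfb_coeff' hn, bfb_coeff' hn]
  have h1 := bf1_map (aeval (0 : k)) d P (reflect n U) (reflect n V)
  have h2 := bf2_map (aeval (0 : k)) d P (reflect n U) (reflect n V)
  rw [coe_aeval_eq_eval] at h1 h2
  rw [h1, h2, bfb_coeff, bfb_coeff]

end Pool.Agent.H45.VM
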