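import Pool.Agent.H35.VQ.Defs

/-!
# Binary forms, exceptional maps of the projective line

A pair of polynomials `A`, `B` of degree at most `n` is read as the map `(x : 1) ↦ (A(x) : B(x))`,
`(1 : 0) ↦ (A_n : B_n)` of the projective line.
-/

namespace Pool.Agent.H45.VM

open Finset Polynomial Pool.Agent.H35.VQ

/-- value at `(a, b)` of the binary form of degree `d` with the coefficients of `P` -/
noncomputable def bf {k R : Type} [Field k] [CommRing R] [Algebra k R] (d : ℕ) (P : k[X])
    (a b : R) : R :=
  ∑ i ∈ range (d + 1), algebraMap k R (P.coeff i) * a ^ i * b ^ (d - i)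

/-- its derivative in the first variable -/
noncomputable def bf1 {k R : Type} [Field k] [CommRing R] [Algebra k R] (d : ℕ) (P : k[X])
    (a b : R) : R :=
  ∑ i ∈ range (d + 1), algebraMap k R (P.coeff i) * ((i : R) * a ^ (i - 1)) * b ^ (d - i)

/-- its derivative in the second variable -/
noncomputable def bf2 {k R : Type} [Field k] [CommRing R] [Algebra k R] (d : ℕ) (P : k[X])
    (a b : R) : R :=
  ∑ i ∈ range (d + 1), algebraMap k R (P.coeff i) * a ^ i * (((d - i : ℕ) : R) * b ^ (d - i - 1))

/-- the discriminant form `H² + 4 F` of the model -/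
noncomputable def dsc {k R : Type} [Field k] [CommRing R] [Algebra k R] {g : ℕ} (C : Hyp k g)
    (a b : R) : R :=
  bf (g + 1) C.h a b ^ 2 + 4 * bf (2 * g + 2) C.f a b

/-- `(A : B)` is a map of degree at most `n` and injective on the rational points -/
structure Exc (k : Type) [Field k] (n : ℕ) (A B : k[X]) : Prop where
  degA : A.natDegree ≤ n
  degB : B.natDegree ≤ n
  inj : ∀ x x' : k, A.eval x * B.eval x' = A.eval x' * B.eval x → x = x'
  inf : ∀ x : k, A.eval x * B.coeff n ≠ A.coeff n * B.eval x

/-- the map `(A : B)` is injective on rational points and unramified over the branch points of `C` -/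
structure Adm {k : Type} [Field k] {g : ℕ} (C : Hyp k g) (n : ℕ) (A B : k[X]) : Prop where
  exc : Exc k n A B
  unram : ∀ z : AlgebraicClosure k, aeval z (derivative A * B - A * derivative B) = 0 →
    dsc C (aeval z A) (aeval z B) ≠ 0
  unram_inf : A.coeff (n - 1) * B.coeff n - A.coeff n * B.coeff (n - 1) = 0 →
    dsc C (A.coeff n) (B.coeff n) ≠ 0

end Pool.Agent.H45.VM
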