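import Pool.Agent.H45.VM.BfA

/-!
# Counting points over the points of the projective line

PROOF. * `fib_smul`: `y ↦ c ^ (g + 1) y` is a bijection of the solution sets (`bf_smul`, `c ≠ 0`; `Nat.card_congr`).
* `numPoints_eq`: the affine solutions `(x, y)` are the disjoint union over `x` (`Nat.card_sigma` or `Finset.card_sigma`,
  `Nat.card_congr` to `Σ x, {y // ..}`), with `bf_one` (`aeval x P = P.eval x` for `x : k`, `Polynomial.coe_aeval_eq_eval`); the points at
  infinity by `bf_inf` (`algebraMap k k = id`).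
* `fib_le`: a monic quadratic polynomial has at most two roots (two solutions `y ≠ y'` satisfy `y + y' = - H`, so a third one is
  equal to one of them; or `Polynomial.card_roots'`).
* `numPoints_le`: sum of `fib_le` over the `q + 1` points.
-/

namespace Pool.Agent.H45.VM

open Finset Polynomial Pool.Agent.H35.VQ

variable {k : Type} [Field k]

/-- number of points of `C` over the point `(a : b)` -/
noncomputable def fib {g : ℕ} (C : Hyp k g) (a b : k) : ℕ :=
  Nat.card {y : k // y ^ 2 + bf (g + 1) C.h a b * y = bf (2 * g + 2) C.f a b}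

theorem fib_smul {g : ℕ} (C : Hyp k g) {c : k} (hc : c ≠ 0) (a b : k) :
    fib C (c * a) (c * b) = fib C a b := by
  refine (Nat.card_congr (Equiv.subtypeEquiv (Equiv.mulLeft₀ (c ^ (g + 1)) (pow_ne_zero _ hc)) ?_)).symm
  intro y
  rw [Equiv.mulLeft₀_apply, bf_smul, bf_smul]
  have h2 : c ^ (2 * g + 2) = c ^ (g + 1) * c ^ (g + 1) := by
    rw [← pow_add]
    congr 1
    ring
  have h3 : c ^ (g + 1) * c ^ (g + 1) ≠ 0 := mul_ne_zero (pow_ne_zero _ hc) (pow_ne_zero _ hc)
  rw [h2]
  constructor
  · intro h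
    linear_combination (c ^ (g + 1) * c ^ (g + 1)) * h
  · intro h
    apply mul_left_cancel₀ h3
    linear_combination h

theorem numPoints_eq [Fintype k] {g : ℕ} (C : Hyp k g) :
    C.numPoints = ∑ x : k, fib C x 1 + fib C 1 0 := by
  have h1 : ∀ x : k, fib C x 1 = Nat.card {y : k // y ^ 2 + C.h.eval x * y = C.f.eval x} := by
    intro x
    unfold fib
    rw [bf_one C.deg_h, bf_one C.deg_f, coe_aeval_eq_eval]
  have h2 : fib C 1 0 =
      Nat.card {w : k // w ^ 2 + C.h.coeff (g + 1) * w = C.f.coeff (2 * g + 2)} := by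
    unfold fib
    rw [bf_inf, bf_inf, Algebra.algebraMap_self_apply, Algebra.algebraMap_self_apply]
  unfold Hyp.numPoints
  rw [h2]
  congr 1
  rw [Nat.card_congr (Equiv.subtypeProdEquivSigmaSubtype
    (fun x y : k => y ^ 2 + C.h.eval x * y = C.f.eval x)), Nat.card_sigma]
  exact Finset.sum_congr rfl fun x _ => (h1 x).symm

theorem fib_le {g : ℕ} (C : Hyp k g) (a b : k) : fib C a b ≤ 2 := by
  by_contra hcon
  push Not at hcon
  unfold fib at hcon
  have hfin : Finite {y : k // y ^ 2 + bf (g + 1) C.h a b * y = bf (2 * g + 2) C.f a b} :=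
    Nat.finite_of_card_ne_zero (by omega)
  have hft := Fintype.ofFinite {y : k // y ^ 2 + bf (g + 1) C.h a b * y = bf (2 * g + 2) C.f a b}
  rw [Nat.card_eq_fintype_card, Fintype.two_lt_card_iff] at hcon
  obtain ⟨⟨x, hx⟩, ⟨y, hy⟩, ⟨z, hz⟩, hxy, hxz, hyz⟩ := hcon
  have hxy' : x - y ≠ 0 := sub_ne_zero.2 fun h => hxy (Subtype.ext h)
  have hxz' : x - z ≠ 0 := sub_ne_zero.2 fun h => hxz (Subtype.ext h)
  have hyz' : y - z ≠ 0 := sub_ne_zero.2 fun h => hyz (Subtype.ext h)
  have e1 : x + y + bf (g + 1) C.h a b = 0 := by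
    apply mul_left_cancel₀ hxy'
    linear_combination hx - hy
  have e2 : x + z + bf (g + 1) C.h a b = 0 := by
    apply mul_left_cancel₀ hxz'
    linear_combination hx - hz
  exact hyz' (by linear_combination e1 - e2)

theorem numPoints_le [Fintype k] {g : ℕ} (C : Hyp k g) :
    C.numPoints ≤ 2 * Fintype.card k + 2 := by
  rw [numPoints_eq]
  have h1 : ∑ x : k, fib C x 1 ≤ Fintype.card k * 2 := by
    have h := Finset.sum_le_card_nsmul (Finset.univ : Finset k) (fun x => fib C x 1) 2
      fun x _ => fib_le C x 1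
    rw [smul_eq_mul, Finset.card_univ] at h
    exact h
  have h2 := fib_le C (1 : k) 0
  omega

end Pool.Agent.H45.VM
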