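import Mathlib

/-!
# The doubling map of an elliptic curve without rational points of order two

`c = x³ + α x² + β x + γ`, `A = x⁴ - 2 β x² - 8 γ x + β² - 4 α γ`, `B = 4 c`.

PROOF. `four_wron`: with `W = x⁶ + 2 α x⁵ + 5 β x⁴ + 20 γ x³ + (20 α γ - 5 β²) x² + (8 α² γ - 2 α β² - 4 β γ) x + (4 α β γ - β³ - 8 γ²)`
one has `A' B - A B' = 4 W` and `A³ + α A² B + β A B² + γ B³ = W²` (check both with `ring`; `A' = 4 x³ - 4 β x - 8 γ`,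
`B' = 12 x² + 8 α x + 4 β`). So if `A' B = A B'` and `4 ≠ 0` then the cubic form vanishes at `(A, B)`.
`four_cop`: if `B = 4 c(x) = 0` then `A = c'(x)²` (indeed `A = c'² - 4 (α + 2 x) c`).
`four_inj`: over a field with the three roots `e₁, e₂, e₃` of `c` (`α = - (e₁ + e₂ + e₃)`, `β = e₁ e₂ + e₁ e₃ + e₂ e₃`, `γ = - e₁ e₂ e₃`):
`A(x) B(y) - A(y) B(x) = 4 (x - y) ∏ ((x - e_i) (y - e_i) - c'(e_i))`, `c'(e₁) = (e₁ - e₂) (e₁ - e₃)` etc. (`ring`).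
-/

namespace Pool.Agent.H45.VM

/-- the numerator of the doubling map -/
def fA {R : Type} [CommRing R] (α β γ x : R) : R := x ^ 4 - 2 * β * x ^ 2 - 8 * γ * x + β ^ 2 - 4 * α * γ

/-- the cubic -/
def fc {R : Type} [CommRing R] (α β γ x : R) : R := x ^ 3 + α * x ^ 2 + β * x + γ

theorem four_wron {R : Type} [CommRing R] [IsDomain R] (h4 : (4 : R) ≠ 0) (α β γ x : R)
    (h : (4 * x ^ 3 - 4 * β * x - 8 * γ) * (4 * fc α β γ x) -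
      fA α β γ x * (4 * (3 * x ^ 2 + 2 * α * x + β)) = 0) :
    fA α β γ x ^ 3 + α * fA α β γ x ^ 2 * (4 * fc α β γ x) + β * fA α β γ x * (4 * fc α β γ x) ^ 2 +
      γ * (4 * fc α β γ x) ^ 3 = 0 := by
  have h1 : (4 * x ^ 3 - 4 * β * x - 8 * γ) * (4 * fc α β γ x) -
      fA α β γ x * (4 * (3 * x ^ 2 + 2 * α * x + β)) =
      4 * (x ^ 6 + 2 * α * x ^ 5 + 5 * β * x ^ 4 + 20 * γ * x ^ 3 +
        (20 * α * γ - 5 * β ^ 2) * x ^ 2 + (8 * α ^ 2 * γ - 2 * α * β ^ 2 - 4 * β * γ) * x +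
        (4 * α * β * γ - β ^ 3 - 8 * γ ^ 2)) := by
    unfold fA fc
    ring
  have h2 : fA α β γ x ^ 3 + α * fA α β γ x ^ 2 * (4 * fc α β γ x) +
      β * fA α β γ x * (4 * fc α β γ x) ^ 2 + γ * (4 * fc α β γ x) ^ 3 =
      (x ^ 6 + 2 * α * x ^ 5 + 5 * β * x ^ 4 + 20 * γ * x ^ 3 +
        (20 * α * γ - 5 * β ^ 2) * x ^ 2 + (8 * α ^ 2 * γ - 2 * α * β ^ 2 - 4 * β * γ) * x +
        (4 * α * β * γ - β ^ 3 - 8 * γ ^ 2)) ^ 2 := by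
    unfold fA fc
    ring
  rw [h1] at h
  rw [h2, (mul_eq_zero.1 h).resolve_left h4]
  ring

theorem four_cop {R : Type} [CommRing R] (α β γ x : R) (h : fc α β γ x = 0) :
    fA α β γ x = (3 * x ^ 2 + 2 * α * x + β) ^ 2 := by
  have h1 : fA α β γ x =
      (3 * x ^ 2 + 2 * α * x + β) ^ 2 - 4 * (α + 2 * x) * fc α β γ x := by
    unfold fA fc
    ring
  rw [h1, h]
  ring

theorem four_inj {R : Type} [CommRing R] (e₁ e₂ e₃ x y : R) :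
    fA (-(e₁ + e₂ + e₃)) (e₁ * e₂ + e₁ * e₃ + e₂ * e₃) (-(e₁ * e₂ * e₃)) x *
      (4 * fc (-(e₁ + e₂ + e₃)) (e₁ * e₂ + e₁ * e₃ + e₂ * e₃) (-(e₁ * e₂ * e₃)) y) -
    fA (-(e₁ + e₂ + e₃)) (e₁ * e₂ + e₁ * e₃ + e₂ * e₃) (-(e₁ * e₂ * e₃)) y *
      (4 * fc (-(e₁ + e₂ + e₃)) (e₁ * e₂ + e₁ * e₃ + e₂ * e₃) (-(e₁ * e₂ * e₃)) x) =
    4 * (x - y) * (((x - e₁) * (y - e₁) - (e₁ - e₂) * (e₁ - e₃)) *
      ((x - e₂) * (y - e₂) - (e₂ - e₁) * (e₂ - e₃)) *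
      ((x - e₃) * (y - e₃) - (e₃ - e₁) * (e₃ - e₂))) := by
  unfold fA fc
  ring

end Pool.Agent.H45.VM
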