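import Pool.Agent.H45.VM.Defs
import Pool.Agent.H45.VM.FourA

/-!
# The doubling map of an elliptic curve without rational points of order two is exceptional

`A = fA (C α) (C β) (C γ) X`, `B = 4 fc (C α) (C β) (C γ) X` in `k[X]`, `2 ≠ 0`, the cubic `c = X³ + α X² + β X + γ` irreducible over the
finite field `k`.

PROOF. `four_coeff`: the coefficients are explicit (`simp [coeff_X_pow ..]`).
`four_exc`: degrees: `compute_degree`. `inf`: `A_4 = 1`, `B_4 = 0`, and `B(x) = 4 c(x) ≠ 0` for `x ∈ k`: an irreducible polynomial of degree `3` has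
no root (`Polynomial.Irreducible..not_isRoot_of_natDegree_ne_one`). `inj`: let `A(x) B(y) = A(y) B(x)`, `x ≠ y` in `k`. In the algebraic closure
`c = (X - e₁) (X - e₂) (X - e₃)` (splits, monic, degree `3`), so `α, β, γ` are as in `four_inj` (compare coefficients); one of the three factors
vanishes (`4 (x - y) ≠ 0`), say for `e = e₁`: as `(e₁ - e₂) (e₁ - e₃) = c'(e₁) = 3 e₁² + 2 α e₁ + β`, this is
`- 2 e² - (x + y + 2 α) e + (x y - β) = 0`: a nonzero polynomial of degree `2` over `k` (leading coefficient `- 2`) with the root `e`; but `c` is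
the minimal polynomial of `e` (irreducible, monic: `minpoly.eq_of_irreducible_of_monic`), of degree `3`: contradiction (`minpoly.degree_le_of_ne_zero`
or `Polynomial.degree_le_of_dvd`).
`four_ram`: `four_wron` in the algebraic closure: `A(z)³ + α A(z)² B(z) + β A(z) B(z)² + γ B(z)³ = 0`. If `B(z) = 0` then `A(z) = 0` and `c(z) = 0`,
by `four_cop` `c'(z) = 0`, but `c` is separable (`Irreducible.separable`, finite fields are perfect). So `B(z) ≠ 0` and `t = A(z) / B(z)` is a root of `c`.
-/

namespace Pool.Agent.H45.VM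

open Finset Polynomial Pool.Agent.H35.VQ

variable {k : Type} [Field k]

private theorem fb_A (α β γ : k) : fA (C α) (C β) (C γ) (X : k[X]) =
    X ^ 4 + C (-(2 * β)) * X ^ 2 + C (-(8 * γ)) * X + C (β ^ 2 - 4 * α * γ) := by
  have h2 : (C (2 : k) : k[X]) = 2 := map_ofNat C 2
  have h4 : (C (4 : k) : k[X]) = 4 := map_ofNat C 4
  have h8 : (C (8 : k) : k[X]) = 8 := map_ofNat C 8
  unfold fA
  simp only [map_neg, map_mul, map_sub, map_pow, h2, h4, h8]
  ring

private theorem fb_B (α β γ : k) : 4 * fc (C α) (C β) (C γ) (X : k[X]) =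
    C 4 * X ^ 3 + C (4 * α) * X ^ 2 + C (4 * β) * X + C (4 * γ) := by
  have h4 : (C (4 : k) : k[X]) = 4 := map_ofNat C 4
  unfold fc
  simp only [map_mul, h4]
  ring

private theorem fb_c (α β γ : k) : fc (C α) (C β) (C γ) (X : k[X]) =
    X ^ 3 + C α * X ^ 2 + C β * X + C γ := rfl

private theorem fb_deg (α β γ : k) : (fc (C α) (C β) (C γ) (X : k[X])).natDegree = 3 := by
  rw [fb_c]
  compute_degree!

theorem four_coeff (α β γ : k) :
    (fA (C α) (C β) (C γ) (X : k[X])).coeff 4 = 1 ∧ (fA (C α) (C β) (C γ) (X : k[X])).coeff 3 = 0 ∧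
      (4 * fc (C α) (C β) (C γ) (X : k[X])).coeff 4 = 0 ∧
      (4 * fc (C α) (C β) (C γ) (X : k[X])).coeff 3 = 4 := by
  rw [fb_A, fb_B]
  refine ⟨?_, ?_, ?_, ?_⟩ <;>
    simp only [coeff_add, coeff_C_mul, coeff_X_pow, coeff_X, coeff_C] <;> norm_num

private theorem fb_evA {R : Type} [CommRing R] [Algebra k R] (α β γ : k) (z : R) :
    aeval z (fA (C α) (C β) (C γ) (X : k[X])) =
      fA (algebraMap k R α) (algebraMap k R β) (algebraMap k R γ) z := by
  unfold fA
  simp [map_ofNat]

private theorem fb_evB {R : Type} [CommRing R] [Algebra k R] (α β γ : k) (z : R) :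
    aeval z (fc (C α) (C β) (C γ) (X : k[X])) =
      fc (algebraMap k R α) (algebraMap k R β) (algebraMap k R γ) z := by
  unfold fc
  simp

private theorem fb_evB4 {R : Type} [CommRing R] [Algebra k R] (α β γ : k) (z : R) :
    aeval z (4 * fc (C α) (C β) (C γ) (X : k[X])) =
      4 * fc (algebraMap k R α) (algebraMap k R β) (algebraMap k R γ) z := by
  rw [map_mul, fb_evB, map_ofNat]

private theorem fb_evA' (α β γ z : k) : (fA (C α) (C β) (C γ) (X : k[X])).eval z = fA α β γ z := by
  unfold fA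
  simp

private theorem fb_evB' (α β γ z : k) :
    (4 * fc (C α) (C β) (C γ) (X : k[X])).eval z = 4 * fc α β γ z := by
  unfold fc
  simp

private theorem fb_noroot (α β γ : k) (hirr : Irreducible (fc (C α) (C β) (C γ) (X : k[X]))) (x : k) :
    fc α β γ x ≠ 0 := by
  intro h
  have h1 : IsRoot (fc (C α) (C β) (C γ) (X : k[X])) x := by
    rw [IsRoot.def]
    have : (fc (C α) (C β) (C γ) (X : k[X])).eval x = fc α β γ x := by
      unfold fc
      simp
    rw [this, h]
  have h2 := degree_eq_one_of_irreducible_of_root hirr h1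
  have h3 := fb_deg α β γ
  have h4 : (fc (C α) (C β) (C γ) (X : k[X])).natDegree = 1 := natDegree_eq_of_degree_eq_some h2
  omega

private theorem fb_key (h2 : (2 : k) ≠ 0) (α β γ : k)
    (hirr : Irreducible (fc (C α) (C β) (C γ) (X : k[X]))) (x y : k) (e : AlgebraicClosure k)
    (he : aeval e (fc (C α) (C β) (C γ) (X : k[X])) = 0)
    (h : (algebraMap k _ x - e) * (algebraMap k _ y - e) -
      (3 * e ^ 2 + 2 * algebraMap k _ α * e + algebraMap k _ β) = 0) : False := by
  have hq : aeval e (C (-2) * X ^ 2 + C (-(x + y + 2 * α)) * X + C (x * y - β) : k[X]) = 0 := by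
    simp only [map_add, map_mul, map_pow, aeval_X, aeval_C, map_neg, map_sub, map_ofNat]
    linear_combination h
  rcases dvd_or_isCoprime _ (C (-2) * X ^ 2 + C (-(x + y + 2 * α)) * X + C (x * y - β) : k[X]) hirr
    with hd | hc
  · have hdeg : (C (-2) * X ^ 2 + C (-(x + y + 2 * α)) * X + C (x * y - β) : k[X]).natDegree = 2 :=
      natDegree_quadratic (neg_ne_zero.2 h2)
    have hne : (C (-2) * X ^ 2 + C (-(x + y + 2 * α)) * X + C (x * y - β) : k[X]) ≠ 0 := by
      intro h0
      rw [h0, natDegree_zero] at hdeg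
      omega
    have h3 := natDegree_le_of_dvd hd hne
    rw [hdeg, fb_deg] at h3
    omega
  · obtain ⟨a, b, hab⟩ := hc
    have h3 := congrArg (aeval e) hab
    rw [map_add, map_mul, map_mul, he, hq, mul_zero, mul_zero, add_zero, map_one] at h3
    exact zero_ne_one h3

private theorem fb_inj (h2 : (2 : k) ≠ 0) (α β γ : k)
    (hirr : Irreducible (fc (C α) (C β) (C γ) (X : k[X]))) (x y : k)
    (h : fA α β γ x * (4 * fc α β γ y) = fA α β γ y * (4 * fc α β γ x)) : x = y := by
  by_contra hxy
  set K := AlgebraicClosure k with hK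
  set a : K := algebraMap k K α with ha
  set b : K := algebraMap k K β with hb
  set c : K := algebraMap k K γ with hc
  obtain ⟨e₁, he₁⟩ := IsAlgClosed.exists_aeval_eq_zero K (fc (C α) (C β) (C γ) (X : k[X]))
    (by
      intro h0
      have := natDegree_eq_of_degree_eq_some (h0.trans (by rfl : (0 : WithBot ℕ) = ((0 : ℕ) : WithBot ℕ)))
      rw [fb_deg] at this
      omega)
  have hr1 : e₁ ^ 3 + a * e₁ ^ 2 + b * e₁ + c = 0 := by
    rw [fb_evB] at he₁
    exact he₁
  obtain ⟨e₂, he₂⟩ := IsAlgClosed.exists_root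
    (C (1 : K) * X ^ 2 + C (a + e₁) * X + C (b + a * e₁ + e₁ ^ 2))
    (by rw [degree_quadratic one_ne_zero]; decide)
  have hr2 : e₂ ^ 2 + (a + e₁) * e₂ + (b + a * e₁ + e₁ ^ 2) = 0 := by
    have := he₂
    rw [IsRoot.def] at this
    simp only [eval_add, eval_mul, eval_C, eval_pow, eval_X, one_mul] at this
    exact this
  set e₃ : K := -a - e₁ - e₂ with he3
  have ea : a = -(e₁ + e₂ + e₃) := by rw [he3]; ring
  have eb : b = e₁ * e₂ + e₁ * e₃ + e₂ * e₃ := by
    rw [he3]
    linear_combination hr2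
  have ec : c = -(e₁ * e₂ * e₃) := by
    rw [he3]
    linear_combination hr1 - e₁ * hr2
  have hroot : ∀ e : K, e ^ 3 + a * e ^ 2 + b * e + c = 0 →
      aeval e (fc (C α) (C β) (C γ) (X : k[X])) = 0 := by
    intro e he
    rw [fb_evB]
    exact he
  have hmap : fA a b c (algebraMap k K x) * (4 * fc a b c (algebraMap k K y)) -
      fA a b c (algebraMap k K y) * (4 * fc a b c (algebraMap k K x)) = 0 := by
    have h3 := congrArg (algebraMap k K) h
    have e1 : ∀ t : k, algebraMap k K (fA α β γ t) = fA a b c (algebraMap k K t) := by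
      intro t
      unfold fA
      simp only [map_sub, map_add, map_mul, map_pow, map_ofNat, ha, hb, hc]
    have e2 : ∀ t : k, algebraMap k K (fc α β γ t) = fc a b c (algebraMap k K t) := by
      intro t
      unfold fc
      simp only [map_add, map_mul, map_pow, ha, hb, hc]
    rw [map_mul, map_mul, map_mul, map_mul, e1, e1, e2, e2, map_ofNat] at h3
    rw [h3, sub_self]
  have hinj := four_inj e₁ e₂ e₃ (algebraMap k K x) (algebraMap k K y)
  rw [← ea, ← eb, ← ec, hmap] at hinj
  have h4 : (4 : K) ≠ 0 := by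
    have : (4 : K) = algebraMap k K (2 * 2) := by
      rw [map_mul, map_ofNat]
      norm_num
    rw [this]
    intro h0
    have h5 := (map_eq_zero (algebraMap k K)).1 h0
    exact (mul_ne_zero h2 h2) h5
  have hxy' : algebraMap k K x - algebraMap k K y ≠ 0 := by
    rw [← map_sub]
    intro h0
    exact hxy (sub_eq_zero.1 ((map_eq_zero (algebraMap k K)).1 h0))
  have hp := (mul_eq_zero.1 hinj.symm).resolve_left (mul_ne_zero h4 hxy')
  rcases mul_eq_zero.1 hp with hp | hp
  · rcases mul_eq_zero.1 hp with hp | hp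
    · refine fb_key h2 α β γ hirr x y e₁ he₁ ?_
      rw [← ha, ← hb, ea, eb]
      linear_combination hp
    · refine fb_key h2 α β γ hirr x y e₂ (hroot e₂ ?_) ?_
      · rw [ea, eb, ec]
        ring
      · rw [← ha, ← hb, ea, eb]
        linear_combination hp
  · refine fb_key h2 α β γ hirr x y e₃ (hroot e₃ ?_) ?_
    · rw [eb, ec]
      have : a = -(e₁ + e₂ + e₃) := ea
      rw [this]
      ring
    · rw [← ha, ← hb, eb]
      have : a = -(e₁ + e₂ + e₃) := ea
      rw [this]
      linear_combination hp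

theorem four_exc [Finite k] (h2 : (2 : k) ≠ 0) (α β γ : k)
    (hirr : Irreducible (fc (C α) (C β) (C γ) (X : k[X]))) :
    Exc k 4 (fA (C α) (C β) (C γ) (X : k[X])) (4 * fc (C α) (C β) (C γ) (X : k[X])) := by
  have h4 : (4 : k) ≠ 0 := by
    have : (4 : k) = 2 * 2 := by norm_num
    rw [this]
    exact mul_ne_zero h2 h2
  refine ⟨?_, ?_, ?_, ?_⟩
  · rw [fb_A]
    compute_degree
  · have h3 : (4 * fc (C α) (C β) (C γ) (X : k[X])).natDegree ≤ 3 := by
      rw [fb_B]
      compute_degree
    exact h3.trans (by norm_num)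
  · intro x x' h
    rw [fb_evA', fb_evB', fb_evA', fb_evB'] at h
    exact fb_inj h2 α β γ hirr x x' h
  · intro x
    obtain ⟨c1, _, c3, _⟩ := four_coeff α β γ
    rw [c1, c3, mul_zero, one_mul, fb_evB']
    exact (mul_ne_zero h4 (fb_noroot α β γ hirr x)).symm

private theorem fb_dA (α β γ : k) : derivative (fA (C α) (C β) (C γ) (X : k[X])) =
    C 4 * X ^ 3 - C (4 * β) * X - C (8 * γ) := by
  rw [fb_A]
  have h2 : (C (2 : k) : k[X]) = 2 := map_ofNat C 2
  have h4 : (C (4 : k) : k[X]) = 4 := map_ofNat C 4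
  have h8 : (C (8 : k) : k[X]) = 8 := map_ofNat C 8
  simp only [derivative_add, derivative_C_mul, derivative_C, derivative_X_pow, derivative_X]
  simp only [map_neg, map_mul, h2, h4, h8, map_natCast]
  push_cast
  ring

private theorem fb_dc (α β γ : k) : derivative (fc (C α) (C β) (C γ) (X : k[X])) =
    C 3 * X ^ 2 + C (2 * α) * X + C β := by
  rw [fb_c]
  have h2 : (C (2 : k) : k[X]) = 2 := map_ofNat C 2
  have h3 : (C (3 : k) : k[X]) = 3 := map_ofNat C 3
  simp only [derivative_add, derivative_C_mul, derivative_C, derivative_X_pow, derivative_X]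
  simp only [map_mul, h2, h3, map_natCast]
  push_cast
  ring

theorem four_ram [Finite k] (h2 : (2 : k) ≠ 0) (α β γ : k)
    (hirr : Irreducible (fc (C α) (C β) (C γ) (X : k[X]))) (z : AlgebraicClosure k)
    (hz : aeval z (derivative (fA (C α) (C β) (C γ) (X : k[X])) * (4 * fc (C α) (C β) (C γ) (X : k[X])) -
      fA (C α) (C β) (C γ) (X : k[X]) * derivative (4 * fc (C α) (C β) (C γ) (X : k[X]))) = 0) :
    aeval z (4 * fc (C α) (C β) (C γ) (X : k[X])) ≠ 0 ∧ ∃ t : AlgebraicClosure k,
      aeval z (fA (C α) (C β) (C γ) (X : k[X])) = t * aeval z (4 * fc (C α) (C β) (C γ) (X : k[X])) ∧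
      aeval t (fc (C α) (C β) (C γ) (X : k[X])) = 0 := by
  set a : AlgebraicClosure k := algebraMap k (AlgebraicClosure k) α with ha
  set b : AlgebraicClosure k := algebraMap k (AlgebraicClosure k) β with hb
  set c : AlgebraicClosure k := algebraMap k (AlgebraicClosure k) γ with hc
  have h4 : (4 : AlgebraicClosure k) ≠ 0 := by
    have : (4 : AlgebraicClosure k) = algebraMap k (AlgebraicClosure k) (2 * 2) := by
      rw [map_mul, map_ofNat]
      norm_num
    rw [this]
    intro h0
    have h5 := (map_eq_zero (algebraMap k (AlgebraicClosure k))).1 h0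
    exact (mul_ne_zero h2 h2) h5
  have hd : derivative (4 * fc (C α) (C β) (C γ) (X : k[X])) =
      4 * (C 3 * X ^ 2 + C (2 * α) * X + C β) := by
    have : (4 : k[X]) = C 4 := (map_ofNat C 4).symm
    rw [this, derivative_mul, derivative_C, zero_mul, zero_add, fb_dc]
  have hz' : (4 * z ^ 3 - 4 * b * z - 8 * c) * (4 * fc a b c z) -
      fA a b c z * (4 * (3 * z ^ 2 + 2 * a * z + b)) = 0 := by
    rw [hd, fb_dA] at hz
    simp only [map_add, map_mul, map_sub, map_pow, aeval_X, aeval_C, map_ofNat, fb_evA, fb_evB] at hz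
    exact hz
  have hw := four_wron h4 a b c z hz'
  have hB : 4 * fc a b c z ≠ 0 := by
    intro h0
    have hf : fc a b c z = 0 := (mul_eq_zero.1 h0).resolve_left h4
    rw [h0] at hw
    have hA : fA a b c z = 0 := by
      have : fA a b c z ^ 3 = 0 := by linear_combination hw
      exact pow_eq_zero_iff (by norm_num) |>.1 this
    rw [four_cop a b c z hf] at hA
    have hd0 : 3 * z ^ 2 + 2 * a * z + b = 0 := pow_eq_zero_iff (by norm_num) |>.1 hA
    have hsep : (fc (C α) (C β) (C γ) (X : k[X])).Separable := PerfectField.separable_of_irreducible hirr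
    obtain ⟨u, v, huv⟩ := hsep
    have h5 := congrArg (aeval z) huv
    rw [map_add, map_mul, map_mul, fb_evB, fb_dc, ← ha, ← hb, ← hc, hf, map_one] at h5
    simp only [map_add, map_mul, map_pow, aeval_X, aeval_C, map_ofNat] at h5
    rw [← ha, ← hb, hd0, mul_zero, mul_zero, add_zero] at h5
    exact zero_ne_one h5
  rw [fb_evB4, fb_evA, ← ha, ← hb, ← hc]
  refine ⟨hB, fA a b c z / (4 * fc a b c z), ?_, ?_⟩
  · rw [div_mul_cancel₀ _ hB]
  · rw [fb_evB, ← ha, ← hb, ← hc]
    have h6 : fc a b c (fA a b c z / (4 * fc a b c z)) * (4 * fc a b c z) ^ 3 = 0 := by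
      conv_lhs => rw [fc]
      generalize 4 * fc a b c z = B at hB hw ⊢
      generalize fA a b c z = A at hw ⊢
      field_simp
      linear_combination hw
    exact (mul_eq_zero.1 h6).resolve_right (pow_ne_zero 3 hB)

end Pool.Agent.H45.VM
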