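import Pool.Agent.H45.VM.NonB
import Pool.Agent.H45.VM.FourB

/-!
# The map of degree four, odd characteristic

PROOF. `K` an extension of degree `3` of `k` (`q` elements), for example inside `AlgebraicClosure k` or `AdjoinRoot` of an irreducible polynomial of
degree `3`; `S` = the elements of `K` not in `k`, `q³ - q > 2 g + 2` of them (`q ≥ 2 g + 3 ≥ 5`); `exists_nb`: `θ ∈ S` with
`dsc C θ 1 ≠ 0`. `c = minpoly k θ` is monic irreducible of degree `3` (degree divides `3` and is not `1`): `c = fc (C α) (C β) (C γ) X` with its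
coefficients. `four_exc`, `four_ram`. `unram`: `(A(z), B(z)) = B(z) (t, 1)`, so by `dsc_smul` it is enough that `dsc C t 1 = aeval t (dp C) ≠ 0`
(`dsc_one`); `c(t) = 0`, so `c` is the minimal polynomial of `t`, and `aeval t (dp C) = 0` would give `c ∣ dp C`, `aeval θ (dp C) = 0`.
`unram_inf`: by `four_coeff` the expression is `0 * 0 - 1 * 4 = - 4 ≠ 0`, the hypothesis is impossible.
-/

namespace Pool.Agent.H45.VM

open Finset Polynomial Pool.Agent.H35.VQ

variable {k : Type} [Field k] {g : ℕ}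

private theorem four_shape (c : k[X]) (hm : c.Monic) (hd : c.natDegree = 3) :
    c = fc (C (c.coeff 2)) (C (c.coeff 1)) (C (c.coeff 0)) (X : k[X]) := by
  have h1 := c.as_sum_range_C_mul_X_pow
  rw [hd] at h1
  simp only [Finset.sum_range_succ, Finset.sum_range_zero] at h1
  have h3 : c.coeff 3 = 1 := by
    have := hm.coeff_natDegree
    rwa [hd] at this
  rw [h3] at h1
  unfold fc
  nth_rewrite 1 [h1]
  rw [map_one]
  ring

private theorem four_ext [Fintype k] (C : Hyp k g) (hg : 1 ≤ g) (hq : 2 * g + 3 ≤ Fintype.card k) :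
    ∃ c : k[X], c.Monic ∧ Irreducible c ∧ c.natDegree = 3 ∧ ¬ c ∣ dp C := by
  classical
  obtain ⟨p, hp⟩ := CharP.exists k
  have : Fact (Nat.Prime p) := ⟨CharP.char_is_prime k p⟩
  have : NeZero 3 := ⟨by norm_num⟩
  have : Fintype (FiniteField.Extension k p 3) := Fintype.ofFinite _
  have hcard : Fintype.card (FiniteField.Extension k p 3) = Fintype.card k ^ 3 := by
    rw [Fintype.card_eq_nat_card, FiniteField.natCard_extension, Nat.card_eq_fintype_card]
  obtain ⟨S, hS⟩ : ∃ S : Finset (FiniteField.Extension k p 3),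
      S = Finset.univ \ Finset.univ.image (algebraMap k (FiniteField.Extension k p 3)) := ⟨_, rfl⟩
  have hSc : 2 * g + 2 < S.card := by
    rw [hS, Finset.card_sdiff_of_subset (Finset.subset_univ _), Finset.card_univ, hcard,
      Finset.card_image_of_injective _ (algebraMap k _).injective, Finset.card_univ]
    have h5 : 5 ≤ Fintype.card k := by omega
    have h6 : Fintype.card k ^ 3 = Fintype.card k * (Fintype.card k * Fintype.card k) := by ring
    have h7 : 5 * 5 ≤ Fintype.card k * Fintype.card k := Nat.mul_le_mul h5 h5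
    have h8 : Fintype.card k * 25 ≤ Fintype.card k * (Fintype.card k * Fintype.card k) :=
      Nat.mul_le_mul_left _ h7
    omega
  obtain ⟨θ, hθS, hθ⟩ := exists_nb C hg S hSc
  have hint : IsIntegral k θ := IsIntegral.of_finite k θ
  refine ⟨minpoly k θ, minpoly.monic hint, minpoly.irreducible hint, ?_, ?_⟩
  · have h1 := minpoly.degree_dvd hint
    rw [FiniteField.finrank_extension, Nat.dvd_prime Nat.prime_three] at h1
    rcases h1 with h1 | h1
    · exfalso
      rw [minpoly.natDegree_eq_one_iff] at h1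
      obtain ⟨x, hx⟩ := h1
      rw [hS, Finset.mem_sdiff, Finset.mem_image] at hθS
      exact hθS.2 ⟨x, Finset.mem_univ _, hx⟩
    · exact h1
  · intro hdvd
    apply hθ
    rw [dsc_one]
    obtain ⟨r, hr⟩ := hdvd
    rw [hr, map_mul, minpoly.aeval, zero_mul]

theorem adm_four [Fintype k] (C : Hyp k g) (hg : 1 ≤ g) (hq : 2 * g + 3 ≤ Fintype.card k)
    (h2 : (2 : k) ≠ 0) : ∃ A B : k[X], Adm C 4 A B := by
  obtain ⟨c, hcm, hcirr, hcd, hcdvd⟩ := four_ext C hg hq
  have hshape := four_shape c hcm hcd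
  obtain ⟨α, hα⟩ : ∃ α, α = c.coeff 2 := ⟨_, rfl⟩
  obtain ⟨β, hβ⟩ : ∃ β, β = c.coeff 1 := ⟨_, rfl⟩
  obtain ⟨γ, hγ⟩ : ∃ γ, γ = c.coeff 0 := ⟨_, rfl⟩
  rw [← hα, ← hβ, ← hγ] at hshape
  have hirr : Irreducible (fc (Polynomial.C α) (Polynomial.C β) (Polynomial.C γ) (X : k[X])) := by
    rw [← hshape]
    exact hcirr
  obtain ⟨hc1, hc2, hc3, hc4⟩ := four_coeff α β γ
  refine ⟨fA (Polynomial.C α) (Polynomial.C β) (Polynomial.C γ) (X : k[X]),
    4 * fc (Polynomial.C α) (Polynomial.C β) (Polynomial.C γ) (X : k[X]),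
    four_exc h2 α β γ hirr, ?_, ?_⟩
  · intro z hz
    obtain ⟨hB, t, ht, htc⟩ := four_ram h2 α β γ hirr z hz
    have h3 : dsc C (aeval z (fA (Polynomial.C α) (Polynomial.C β) (Polynomial.C γ) (X : k[X])))
        (aeval z (4 * fc (Polynomial.C α) (Polynomial.C β) (Polynomial.C γ) (X : k[X]))) =
        aeval z (4 * fc (Polynomial.C α) (Polynomial.C β) (Polynomial.C γ) (X : k[X])) ^
          (2 * g + 2) * dsc C t 1 := by
      rw [← dsc_smul, mul_one, ht, mul_comm]
    rw [h3]
    refine mul_ne_zero (pow_ne_zero _ hB) ?_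
    rw [dsc_one]
    intro h4
    apply hcdvd
    rw [← hshape] at htc
    rw [minpoly.eq_of_irreducible_of_monic hcirr htc hcm]
    exact minpoly.dvd k t h4
  · intro h3
    exfalso
    rw [show (4 - 1 : ℕ) = 3 from rfl, hc1, hc2, hc3, hc4] at h3
    have h4 : (2 : k) * 2 = 0 := by linear_combination (-1 : k) * h3
    rcases mul_self_eq_zero.1 h4 with h5
    exact h2 h5

end Pool.Agent.H45.VM
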