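import Pool.Agent.H45.VM.NonB

/-!
# Additive polynomials

PROOF. `P`, `Q` from `exists_two`, `δ = P.1 * Q.2 - P.2 * Q.1 ≠ 0`, `A = C Q.1 * L + C P.1`, `B = C Q.2 * L + C P.2`. Degrees at most `n`,
`A_n = Q.1 * L_n`, `B_n = Q.2 * L_n`, `A_(n-1) = Q.1 * L_(n-1) = 0`, `B_(n-1) = 0` (`n ≥ 2`, so `n - 1 ≥ 1` and the constants do not matter).
`inj`: `A(x) B(x') - A(x') B(x) = - δ (L(x) - L(x'))` and `L` is injective on `k`. `inf`: `A(x) B_n - A_n B(x) = L_n δ ≠ 0`.
`unram`: `A' B - A B' = L' (Q.1 P.2 - P.1 Q.2) = - c δ ≠ 0` (a nonzero constant), so the hypothesis is impossible.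
`unram_inf`: `dsc C (Q.1 * L_n) (Q.2 * L_n) = L_n ^ (2 g + 2) dsc C Q.1 Q.2 ≠ 0` (`dsc_smul`).
-/

namespace Pool.Agent.H45.VM

open Finset Polynomial Pool.Agent.H35.VQ

variable {k : Type} [Field k] {g : ℕ}

theorem adm_lin [Fintype k] (C : Hyp k g) (hg : 1 ≤ g) (hq : 2 * g + 3 ≤ Fintype.card k) {n : ℕ}
    (hn : 2 ≤ n) (L : k[X]) (hL : L.natDegree = n) (hL1 : L.coeff (n - 1) = 0)
    (hinj : Function.Injective fun x : k => L.eval x) {c : k} (hc : c ≠ 0)
    (hder : derivative L = Polynomial.C c) : ∃ A B : k[X], Adm C n A B := by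
  obtain ⟨⟨p1, p2⟩, ⟨q1, q2⟩, hδ, -, hQ⟩ := exists_two C hg hq
  simp only at hδ hQ
  have hL0 : L ≠ 0 := by
    intro h
    rw [h, natDegree_zero] at hL
    omega
  have hLn : L.coeff n ≠ 0 := by
    rw [← hL]
    exact leadingCoeff_ne_zero.2 hL0
  have hn0 : n ≠ 0 := by omega
  have hn1 : n - 1 ≠ 0 := by omega
  have hdeg : ∀ a b : k, (Polynomial.C a * L + Polynomial.C b).natDegree ≤ n := by
    intro a b
    refine (natDegree_add_le _ _).trans (max_le ?_ ?_)
    · exact (natDegree_C_mul_le _ _).trans hL.le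
    · rw [natDegree_C]
      exact Nat.zero_le _
  have hcn : ∀ a b : k, (Polynomial.C a * L + Polynomial.C b).coeff n = L.coeff n * a := by
    intro a b
    rw [coeff_add, coeff_C_mul, coeff_C_of_ne_zero hn0, add_zero, mul_comm]
  have hcn1 : ∀ a b : k, (Polynomial.C a * L + Polynomial.C b).coeff (n - 1) = 0 := by
    intro a b
    rw [coeff_add, coeff_C_mul, coeff_C_of_ne_zero hn1, hL1, mul_zero, add_zero]
  have hev : ∀ a b x : k, (Polynomial.C a * L + Polynomial.C b).eval x = a * L.eval x + b := by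
    intro a b x
    rw [eval_add, eval_mul, eval_C, eval_C]
  have hd : ∀ a b : k, derivative (Polynomial.C a * L + Polynomial.C b) = Polynomial.C (a * c) := by
    intro a b
    rw [derivative_add, derivative_C, add_zero, derivative_C_mul, hder, Polynomial.C_mul]
  refine ⟨Polynomial.C q1 * L + Polynomial.C p1, Polynomial.C q2 * L + Polynomial.C p2,
    ⟨hdeg _ _, hdeg _ _, ?_, ?_⟩, ?_, ?_⟩
  · intro x x' h
    rw [hev, hev, hev, hev] at h
    apply hinj
    have h1 : (p1 * q2 - p2 * q1) * (L.eval x - L.eval x') = 0 := by linear_combination -h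
    rcases mul_eq_zero.1 h1 with h2 | h2
    · exact absurd h2 hδ
    · exact sub_eq_zero.1 h2
  · intro x h
    rw [hev, hev, hcn, hcn] at h
    have h1 : (p1 * q2 - p2 * q1) * L.coeff n = 0 := by linear_combination h
    rcases mul_eq_zero.1 h1 with h2 | h2
    · exact hδ h2
    · exact hLn h2
  · intro z hz
    exfalso
    rw [hd, hd] at hz
    have h1 : Polynomial.C (q1 * c) * (Polynomial.C q2 * L + Polynomial.C p2) -
        (Polynomial.C q1 * L + Polynomial.C p1) * Polynomial.C (q2 * c) =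
          Polynomial.C (-(c * (p1 * q2 - p2 * q1))) := by
      simp only [Polynomial.C_mul, Polynomial.C_neg, Polynomial.C_sub]
      ring
    rw [h1, aeval_C] at hz
    have h2 : -(c * (p1 * q2 - p2 * q1)) = 0 := by
      apply (algebraMap k (AlgebraicClosure k)).injective
      rw [hz, map_zero]
    rcases mul_eq_zero.1 (neg_eq_zero.1 h2) with h3 | h3
    · exact hc h3
    · exact hδ h3
  · intro _
    rw [hcn, hcn, dsc_smul]
    exact mul_ne_zero (pow_ne_zero _ hLn) hQ

end Pool.Agent.H45.VM
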