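import Mathlib

/-!
# Additive polynomials without rational zeros

PROOF. * `exists_lin_odd`: `L = X ^ p - a X` with `a` not a square (`FiniteField.exists_nonsquare`, `ringChar k ≠ 2`). `L(x) = L(x')` gives
`(x - x') ^ p = a (x - x')` (`sub_pow_char`), so `x = x'` or `a = (x - x') ^ (p - 1)`, a square as `p - 1` is even: impossible. The derivative
is `p X ^ (p - 1) - a = - a ≠ 0` (`a ≠ 0` because `0` is a square); degree `p`; `L.coeff (p - 1) = 0` because `p - 1 ≠ p` and `p - 1 ≠ 1` (`p ≥ 3`).
* `exists_lin_two`, characteristic two, `n = 2 ^ j`, `j ≥ 2`: for `b`, `c` in `k`, `L = X ^ n + b X ^ 2 + c X`. There are `b` and `c ≠ 0` with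
`x ^ (n - 1) + b x + c ≠ 0` for all `x ≠ 0`: otherwise every one of the `q (q - 1)` pairs `(b, c)`, `c ≠ 0`, has a zero `x ≠ 0`; a zero `x ≠ 0`
belongs to at most `q - 1` of the pairs (`c = x ^ (n - 1) + b x` is determined by `b`, and is `0` for `b = x ^ (n - 2)`, so that `b` does not
count), altogether at most `(q - 1)²` pairs, and `(q - 1)² < q (q - 1)`. (Map the pairs to `(x, b)`: injective into
`{(x, b) : x ≠ 0, b ≠ x ^ (n - 2)}`.) Then `L(x) = L(x')` gives `L(x - x') = 0` (`sub_pow_char_pow`, or `add_pow_char_pow`; in characteristic two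
`-1 = 1`), so `x = x'`. `derivative L = n X ^ (n - 1) + 2 b X + c = c`; degree `n` (`n ≥ 4 > 2`), `coeff (n - 1) = 0` as `n - 1 ≥ 3`.
-/

namespace Pool.Agent.H45.VM

open Finset Polynomial

variable {k : Type} [Field k] [Fintype k]

private lemma linE_pair [CharP k 2] (n : ℕ) (hn : 3 ≤ n) :
    ∃ b c : k, c ≠ 0 ∧ ∀ x : k, x ≠ 0 → x ^ (n - 1) + b * x + c ≠ 0 := by
  classical
  set F : kˣ × kˣ → k × kˣ := fun u => ((u.1 : k) ^ (n - 2) + (u.2 : k), u.2 * u.1) with hF
  have hns : ¬ Function.Surjective F := by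
    intro hs
    have h1 := Fintype.card_le_of_surjective F hs
    rw [Fintype.card_prod, Fintype.card_prod] at h1
    have h2 : Fintype.card kˣ < Fintype.card k := by
      rw [Fintype.card_units]
      have := Fintype.card_pos (α := k)
      omega
    have h3 : 0 < Fintype.card kˣ := Fintype.card_pos
    exact absurd h1 (not_le.2 (Nat.mul_lt_mul_of_pos_right h2 h3))
  rw [Function.Surjective] at hns
  push Not at hns
  obtain ⟨⟨b, c⟩, hbc⟩ := hns
  refine ⟨b, c, c.ne_zero, fun x hx h0 => ?_⟩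
  have hxx : x ^ (n - 1) = x ^ (n - 2) * x := by
    rw [← pow_succ]
    congr 1
    omega
  have hb' : b + x ^ (n - 2) ≠ 0 := by
    intro hb
    apply c.ne_zero
    have : (c : k) = (x ^ (n - 1) + b * x + c) - (b + x ^ (n - 2)) * x := by
      rw [hxx]
      ring
    rw [this, h0, hb]
    ring
  apply hbc (Units.mk0 x hx, Units.mk0 (b + x ^ (n - 2)) hb')
  simp only [hF]
  refine Prod.ext ?_ (Units.ext ?_)
  · simp only [Units.val_mk0]
    have h2 : x ^ (n - 2) + x ^ (n - 2) = 0 := CharTwo.add_self_eq_zero _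
    linear_combination h2
  · simp only [Units.val_mul, Units.val_mk0]
    have h2 : (c : k) + c = 0 := CharTwo.add_self_eq_zero _
    rw [hxx] at h0
    linear_combination h0 - h2

theorem exists_lin_odd (p : ℕ) (hp : p.Prime) (hodd : Odd p) [CharP k p] :
    ∃ (L : k[X]) (c : k), L.natDegree = p ∧ L.coeff (p - 1) = 0 ∧
      (Function.Injective fun x : k => L.eval x) ∧ c ≠ 0 ∧ derivative L = C c := by
  have hfact : Fact p.Prime := ⟨hp⟩
  have h2 : 2 < p := by
    rcases hp.two_le.eq_or_lt with h | h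
    · rw [← h] at hodd
      exact absurd hodd (by decide)
    · exact h
  have hchar : ringChar k ≠ 2 := by
    rw [ringChar.eq k p]
    omega
  obtain ⟨a, ha⟩ := FiniteField.exists_nonsquare hchar
  have ha0 : a ≠ 0 := by
    rintro rfl
    exact ha ⟨0, by simp⟩
  refine ⟨X ^ p - C a * X, -a, ?_, ?_, ?_, neg_ne_zero.2 ha0, ?_⟩
  · rw [natDegree_sub_eq_left_of_natDegree_lt, natDegree_X_pow]
    rw [natDegree_X_pow]
    exact lt_of_le_of_lt ((natDegree_C_mul_le a X).trans natDegree_X_le) (by omega)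
  · rw [coeff_sub, coeff_X_pow, coeff_C_mul, coeff_X, if_neg (by omega), if_neg (by omega)]
    ring
  · intro x x' hx
    simp only [eval_sub, eval_pow, eval_X, eval_mul, eval_C] at hx
    have h3 : (x - x') ^ p = a * (x - x') := by
      rw [sub_pow_char x x']
      linear_combination hx
    by_contra hne
    have hd : x - x' ≠ 0 := sub_ne_zero.2 hne
    have h4 : (x - x') ^ (p - 1) = a := by
      have h5 : (x - x') ^ (p - 1) * (x - x') = a * (x - x') := by
        rw [← h3, ← pow_succ]
        congr 1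
        omega
      exact mul_right_cancel₀ hd h5
    obtain ⟨m, hm⟩ := hodd
    apply ha
    refine ⟨(x - x') ^ m, ?_⟩
    rw [← h4, ← pow_add]
    congr 1
    omega
  · rw [derivative_sub, derivative_X_pow, derivative_C_mul, derivative_X, CharP.cast_eq_zero k p]
    simp

theorem exists_lin_two [CharP k 2] {j : ℕ} (hj : 2 ≤ j) :
    ∃ (L : k[X]) (c : k), L.natDegree = 2 ^ j ∧ L.coeff (2 ^ j - 1) = 0 ∧
      (Function.Injective fun x : k => L.eval x) ∧ c ≠ 0 ∧ derivative L = C c := by
  have hn4 : 4 ≤ 2 ^ j := by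
    calc 4 = 2 ^ 2 := by norm_num
      _ ≤ 2 ^ j := Nat.pow_le_pow_right (by norm_num) hj
  obtain ⟨b, c, hc, hbc⟩ := linE_pair (k := k) (2 ^ j) (by omega)
  have h2 : (2 : k) = 0 := CharTwo.two_eq_zero
  refine ⟨X ^ 2 ^ j + (C b * X ^ 2 + C c * X), c, ?_, ?_, ?_, hc, ?_⟩
  · rw [natDegree_add_eq_left_of_natDegree_lt, natDegree_X_pow]
    rw [natDegree_X_pow]
    refine lt_of_le_of_lt (natDegree_add_le _ _) (max_lt ?_ ?_)
    · exact lt_of_le_of_lt (natDegree_C_mul_X_pow_le b 2) (by omega)
    · exact lt_of_le_of_lt ((natDegree_C_mul_le c X).trans natDegree_X_le) (by omega)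
  · rw [coeff_add, coeff_add, coeff_X_pow, coeff_C_mul, coeff_X_pow, coeff_C_mul, coeff_X,
      if_neg (by omega), if_neg (by omega), if_neg (by omega)]
    ring
  · intro x x' hx
    simp only [eval_add, eval_pow, eval_X, eval_mul, eval_C] at hx
    have h3 : (x - x') ^ 2 ^ j = x ^ 2 ^ j - x' ^ 2 ^ j := sub_pow_char_pow x x' j
    have h4 : (x - x') ^ 2 = x ^ 2 - x' ^ 2 := sub_pow_char x x'
    by_contra hne
    have hd : x - x' ≠ 0 := sub_ne_zero.2 hne
    apply hbc (x - x') hd
    have h5 : ((x - x') ^ (2 ^ j - 1) + b * (x - x') + c) * (x - x') = 0 := by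
      have h6 : (x - x') ^ (2 ^ j - 1) * (x - x') = (x - x') ^ 2 ^ j := by
        rw [← pow_succ]
        congr 1
        omega
      calc ((x - x') ^ (2 ^ j - 1) + b * (x - x') + c) * (x - x')
          = (x - x') ^ (2 ^ j - 1) * (x - x') + b * (x - x') ^ 2 + c * (x - x') := by ring
        _ = 0 := by
          rw [h6, h3, h4]
          linear_combination hx
    exact (mul_eq_zero.1 h5).resolve_right hd
  · rw [derivative_add, derivative_add, derivative_X_pow, derivative_C_mul, derivative_C_mul,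
      derivative_X, derivative_X_pow]
    push_cast
    rw [h2, zero_pow (by omega)]
    simp

end Pool.Agent.H45.VM
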