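import Pool.Agent.H45.VM.Stp

/-!
# The theorem

PROOF. `main_odd`: induction on `m` (`Nat.recOnMul`, or strong induction with `Nat.minFac`): `m = 1`: `G = g`; otherwise `m = l m'`, `l = m.minFac` an odd
prime, `m'` odd and smaller: first `m'` (genus `G'`, `G' + 1 = m' (g + 1)`, `1 ≤ G'`), then `stp_prime` (`G + 1 = l (G' + 1)`).
`main`: first case: induction on `a` (`n = 4 ^ a m`): `stp_four` on top of the case `a`. Second case: `q` even, so `2 = 0` in `k`
(`FiniteField.even_card_iff_char_two` or: otherwise the characteristic is odd and `q` odd), `n = 2 ^ j m` with `m` odd and `j ≥ 2`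
(`Nat.exists_eq_two_pow_mul_odd`, `4 ∣ n` and `m` odd): `main_odd` then `stp_two`.
-/

namespace Pool.Agent.H45.VM

open Finset Polynomial Pool.Agent.H35.VQ

private lemma genus_pos {g m G : ℕ} (hg : 1 ≤ g) (hm : 0 < m) (hG : G + 1 = m * (g + 1)) :
    1 ≤ G := by
  have h : 1 * (g + 1) ≤ m * (g + 1) := Nat.mul_le_mul_right _ hm
  omega

theorem main_odd {k : Type} [Field k] [Fintype k] {g : ℕ} (C : Hyp k g) (hg : 1 ≤ g) (m : ℕ)
    (hm : Odd m) (G : ℕ) (hG : G + 1 = m * (g + 1)) :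
    ∃ C' : Hyp k G, C'.numPoints = C.numPoints := by
  induction m using Nat.strong_induction_on generalizing G with
  | _ m ih =>
    rcases Nat.lt_or_ge 1 m with h1 | h1
    · have hl : m.minFac.Prime := Nat.minFac_prime (by omega)
      obtain ⟨m', hm'⟩ := Nat.minFac_dvd m
      have hodd : Odd m.minFac ∧ Odd m' := by
        rw [hm'] at hm
        exact Nat.odd_mul.mp hm
      have hm'pos : 0 < m' := hodd.2.pos
      have hlt : m' < m := by
        have h2 := hl.two_le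
        have h3 : 2 * m' ≤ m.minFac * m' := Nat.mul_le_mul_right _ h2
        omega
      obtain ⟨G', hG'⟩ : ∃ G' : ℕ, G' + 1 = m' * (g + 1) :=
        ⟨m' * (g + 1) - 1, Nat.sub_add_cancel (Nat.mul_pos hm'pos (Nat.succ_pos g))⟩
      obtain ⟨C₁, h₁⟩ := ih m' hlt hodd.2 G' hG'
      obtain ⟨C₂, h₂⟩ := stp_prime C₁ (genus_pos hg hm'pos hG') hl hodd.1 (G := G)
        (by rw [hG, hG', ← mul_assoc, ← hm'])
      exact ⟨C₂, h₂.trans h₁⟩
    · have h2 : m = 1 := by
        have := hm.pos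
        omega
      subst h2
      obtain rfl : G = g := by omega
      exact ⟨C, rfl⟩

private lemma main_four {k : Type} [Field k] [Fintype k] {g : ℕ} (C : Hyp k g) (hg : 1 ≤ g)
    (m : ℕ) (hm : Odd m) (a : ℕ) (G : ℕ) (hG : G + 1 = 4 ^ a * m * (g + 1)) :
    ∃ C' : Hyp k G, C'.numPoints = C.numPoints := by
  induction a generalizing G with
  | zero => exact main_odd C hg m hm G (by simpa using hG)
  | succ a ih =>
    have hpos : 0 < 4 ^ a * m := Nat.mul_pos (by positivity) hm.pos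
    obtain ⟨G', hG'⟩ : ∃ G' : ℕ, G' + 1 = 4 ^ a * m * (g + 1) :=
      ⟨4 ^ a * m * (g + 1) - 1, Nat.sub_add_cancel (Nat.mul_pos hpos (Nat.succ_pos g))⟩
    obtain ⟨C₁, h₁⟩ := ih G' hG'
    obtain ⟨C₂, h₂⟩ := stp_four C₁ (genus_pos hg hpos hG') (G := G)
      (by rw [hG, hG']; ring)
    exact ⟨C₂, h₂.trans h₁⟩

theorem main (k : Type) [Field k] [Finite k] (g : ℕ) (hg : 1 ≤ g) (C : Hyp k g) (n : ℕ) (hn0 : 0 < n)
    (hn : (∃ a m : ℕ, Odd m ∧ n = 4 ^ a * m) ∨ (Even (Nat.card k) ∧ 4 ∣ n)) (G : ℕ)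
    (hG : G + 1 = n * (g + 1)) : ∃ C' : Hyp k G, C'.numPoints = C.numPoints := by
  have : Fintype k := Fintype.ofFinite k
  rcases hn with ⟨a, m, hm, rfl⟩ | ⟨hev, h4⟩
  · exact main_four C hg m hm a G hG
  · have h2 : (2 : k) = 0 := by
      rw [Nat.card_eq_fintype_card] at hev
      have hch : ringChar k = 2 :=
        FiniteField.even_card_iff_char_two.mpr (Nat.even_iff.mp hev)
      have := ringChar.Nat.cast_ringChar (R := k)
      rw [hch] at this
      exact_mod_cast this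
    obtain ⟨j, m, hm, rfl⟩ := Nat.exists_eq_two_pow_mul_odd hn0.ne'
    have hj : 2 ≤ j := by
      have h5 : 2 ^ 2 ∣ 2 ^ j * m := by simpa using h4
      have hcop : Nat.Coprime (2 ^ 2) m := Nat.Coprime.pow_left 2 (Nat.coprime_two_left.mpr hm)
      exact (Nat.pow_dvd_pow_iff_le_right (by norm_num)).mp (hcop.dvd_of_dvd_mul_right h5)
    obtain ⟨G', hG'⟩ : ∃ G' : ℕ, G' + 1 = m * (g + 1) :=
      ⟨m * (g + 1) - 1, Nat.sub_add_cancel (Nat.mul_pos hm.pos (Nat.succ_pos g))⟩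
    obtain ⟨C₁, h₁⟩ := main_odd C hg m hm G' hG'
    obtain ⟨C₂, h₂⟩ := stp_two C₁ (genus_pos hg hm.pos hG') h2 hj (G := G)
      (by rw [hG, hG', mul_assoc])
    exact ⟨C₂, h₂.trans h₁⟩

end Pool.Agent.H45.VM
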