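import Pool.Agent.H45.VM.BfA

/-!
# The discriminant form, points of the line which are not branch points

PROOF. `Dp = h² + 4 f` (`C 4 * f` in `k[X]`), degree at most `2 g + 2`. `dsc_one`: `bf_one`. `dsc_inf`: `bf_inf` and
`(h²).coeff (2 g + 2) = (h.coeff (g + 1))²` (`Polynomial.coeff_pow_of_natDegree_le` or `coeff_mul_of_natDegree_le`).
`dsc_smul`: `bf_smul`, `(c ^ (g + 1))² = c ^ (2 g + 2)`.
`dp_ne`: suppose `h² + 4 f = 0`, `g ≥ 1`. If `2 ≠ 0` in `k`: at any `x`, `y = - h(x) / 2`: `2 y + h = 0`, `y² + h y = - h² / 4 = f(x)`, and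
`h' y - f' = - h h' / 2 - f' = - (h² + 4 f)' / 4 = 0`, contradiction to `smooth` (take `x = 0`). If `2 = 0`: `h² = 0`, so `h = 0`. At infinity
(`w` a square root of the coefficient `f_(2g+2)` in the algebraic closure): `f.coeff (2 g + 1) ≠ 0`. At affine points (`y` a square root
of `f(x)`): `f'(x) ≠ 0` for every `x` of the algebraic closure, so `f'` is a nonzero constant (`IsAlgClosed.exists_aeval_eq_zero` or
`Polynomial.natDegree`..); but the coefficient of `X ^ (2 g)` of `f'` is `(2 g + 1) f.coeff (2 g + 1) = f.coeff (2 g + 1) ≠ 0` and `2 g ≥ 2`.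
`exists_two`: the number of `x ∈ k` with `Dp(x) = 0`, plus one if `Dp.coeff (2 g + 2) = 0`, is at most `2 g + 2` (in the second case the
degree of `Dp` is at most `2 g + 1`; `Polynomial.card_roots'`). There are `card k + 1 ≥ 2 g + 4` points: if `Dp.coeff (2 g + 2) ≠ 0`
take `Q = (1, 0)` and `P = (x, 1)` with `Dp(x) ≠ 0` (`card k > 2 g + 2`); otherwise at most `2 g + 1` zeros in `k`, `card k ≥ 2 g + 3`: two
elements `x ≠ x'` with `Dp ≠ 0`, `P = (x, 1)`, `Q = (x', 1)`, determinant `x - x'`.
`exists_nb`: in a field `K` containing `k` and a finite set `S` of `K` with more than `2 g + 2` elements there is `θ ∈ S` with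
`dsc C θ 1 = Dp(θ) ≠ 0` (the zeros are the roots of `Dp` mapped to `K`).
-/

namespace Pool.Agent.H45.VM

open Finset Polynomial Pool.Agent.H35.VQ

variable {k : Type} [Field k] {g : ℕ}

/-- the discriminant polynomial -/
noncomputable def dp (C : Hyp k g) : k[X] := C.h ^ 2 + 4 * C.f

theorem dp_deg (C : Hyp k g) : (dp C).natDegree ≤ 2 * g + 2 := by
  unfold dp
  refine (natDegree_add_le _ _).trans (max_le ?_ ?_)
  · refine natDegree_pow_le.trans ?_
    have := C.deg_h
    omega
  · refine natDegree_mul_le.trans ?_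
    have := C.deg_f
    have h4 : (4 : k[X]).natDegree = 0 := natDegree_ofNat 4
    omega

theorem dsc_one {R : Type} [CommRing R] [Algebra k R] (C : Hyp k g) (x : R) :
    dsc C x 1 = aeval x (dp C) := by
  rw [dsc, bf_one C.deg_h, bf_one C.deg_f, dp]
  simp only [map_add, map_mul, map_pow, map_ofNat]

private theorem nb_coeff (C : Hyp k g) :
    (dp C).coeff (2 * g + 2) = C.h.coeff (g + 1) ^ 2 + 4 * C.f.coeff (2 * g + 2) := by
  rw [dp, coeff_add]
  have h1 : (C.h ^ 2).coeff (2 * g + 2) = C.h.coeff (g + 1) ^ 2 := by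
    have := coeff_pow_of_natDegree_le (m := 2) C.deg_h
    rw [← this]
    congr 1
  have h2 : (4 * C.f).coeff (2 * g + 2) = 4 * C.f.coeff (2 * g + 2) := by
    have : (4 : k[X]) = Polynomial.C (4 : k) := (map_ofNat Polynomial.C 4).symm
    rw [this, coeff_C_mul]
  rw [h1, h2]

theorem dsc_inf {R : Type} [CommRing R] [Algebra k R] (C : Hyp k g) :
    dsc C (1 : R) 0 = algebraMap k R ((dp C).coeff (2 * g + 2)) := by
  rw [nb_coeff, dsc, bf_inf, bf_inf]
  simp only [map_add, map_mul, map_pow, map_ofNat]

theorem dsc_smul {R : Type} [CommRing R] [Algebra k R] (C : Hyp k g) (c a b : R) :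
    dsc C (c * a) (c * b) = c ^ (2 * g + 2) * dsc C a b := by
  rw [dsc, dsc, bf_smul, bf_smul]
  have : c ^ (2 * g + 2) = (c ^ (g + 1)) ^ 2 := by rw [← pow_mul]; congr 1; ring
  rw [this]
  ring

theorem dsc_map {R S : Type} [CommRing R] [Algebra k R] [CommRing S] [Algebra k S] (C : Hyp k g)
    (φ : R →ₐ[k] S) (a b : R) : φ (dsc C a b) = dsc C (φ a) (φ b) := by
  simp only [dsc, map_add, map_mul, map_pow, map_ofNat, bf_map]

theorem dp_ne (C : Hyp k g) (hg : 1 ≤ g) : dp C ≠ 0 := by
  intro h0
  by_cases h2 : (2 : k) = 0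
  · have h4 : (4 : k[X]) = 0 := by
      have : (4 : k[X]) = Polynomial.C (2 : k) * Polynomial.C (2 : k) := by
        rw [map_ofNat]
        norm_num
      rw [this, h2]
      simp
    have hh : C.h = 0 := by
      rw [dp, h4, zero_mul, add_zero] at h0
      exact pow_eq_zero_iff (two_ne_zero) |>.1 h0
    have h2' : (2 : AlgebraicClosure k) = 0 := by
      have := congrArg (algebraMap k (AlgebraicClosure k)) h2
      rwa [map_ofNat, map_zero] at this
    obtain ⟨w, hw⟩ := IsAlgClosed.exists_pow_nat_eq
      (algebraMap k (AlgebraicClosure k) (C.f.coeff (2 * g + 2))) (n := 2) (by norm_num)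
    have hinf := C.smooth_infty w (by rw [hh]; simpa using hw)
    rw [hh] at hinf
    have hf1 : algebraMap k (AlgebraicClosure k) (C.f.coeff (2 * g + 1)) ≠ 0 := by
      rcases hinf with h | h
      · exact absurd (by rw [h2']; simp) h
      · intro h3
        apply h
        rw [h3]
        simp
    have hne : ∀ x : AlgebraicClosure k, aeval x (derivative C.f) ≠ 0 := by
      intro x hx
      obtain ⟨y, hy⟩ := IsAlgClosed.exists_pow_nat_eq (aeval x C.f) (n := 2) (by norm_num)
      have hs := C.smooth x y (by rw [hh]; simpa using hy)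
      rw [hh] at hs
      rcases hs with h | h
      · exact h (by rw [h2']; simp)
      · apply h
        rw [hx]
        simp
    have hdeg : (derivative C.f).degree = 0 := by
      by_contra hd
      obtain ⟨x, hx⟩ := IsAlgClosed.exists_aeval_eq_zero (AlgebraicClosure k) _ hd
      exact hne x hx
    have hc : (derivative C.f).coeff (2 * g) = 0 := by
      apply coeff_eq_zero_of_natDegree_lt
      have : (derivative C.f).natDegree = 0 := natDegree_eq_of_degree_eq_some hdeg
      omega
    rw [coeff_derivative] at hc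
    apply hf1
    have h1 : ((2 * g : ℕ) : k) + 1 = 1 := by
      push_cast
      rw [h2]
      ring
    rw [h1, mul_one] at hc
    rw [hc, map_zero]
  · have h2' : (2 : AlgebraicClosure k) ≠ 0 := by
      intro h
      apply h2
      apply (algebraMap k (AlgebraicClosure k)).injective
      rwa [map_ofNat, map_zero]
    have e1 : (aeval (0 : AlgebraicClosure k) C.h) ^ 2 + 4 * aeval (0 : AlgebraicClosure k) C.f = 0 := by
      have := congrArg (aeval (0 : AlgebraicClosure k)) h0
      rw [dp] at this
      simpa only [map_add, map_mul, map_pow, map_ofNat, map_zero] using this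
    have e2 : 2 * aeval (0 : AlgebraicClosure k) C.h * aeval (0 : AlgebraicClosure k) (derivative C.h) +
        4 * aeval (0 : AlgebraicClosure k) (derivative C.f) = 0 := by
      have := congrArg derivative h0
      have e3 : derivative (dp C) = 2 * C.h * derivative C.h + 4 * derivative C.f := by
        rw [dp]
        have h4 : (4 : k[X]) = Polynomial.C (4 : k) := (map_ofNat Polynomial.C 4).symm
        rw [h4, derivative_add, derivative_C_mul, pow_two, derivative_mul]
        ring
      rw [e3, derivative_zero] at this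
      have := congrArg (aeval (0 : AlgebraicClosure k)) this
      simpa only [map_add, map_mul, map_pow, map_ofNat, map_zero] using this
    have h4' : (4 : AlgebraicClosure k) ≠ 0 := by
      have : (4 : AlgebraicClosure k) = 2 * 2 := by norm_num
      rw [this]
      exact mul_ne_zero h2' h2'
    rcases C.smooth 0 (-(aeval (0 : AlgebraicClosure k) C.h) / 2) (by
      apply mul_left_cancel₀ h4'
      field_simp
      linear_combination -e1) with h | h
    · apply h
      field_simp
      ring
    · apply h
      apply mul_left_cancel₀ h4'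
      have h5 : -(aeval (0 : AlgebraicClosure k) C.h) / 2 * 2 = -(aeval (0 : AlgebraicClosure k) C.h) :=
        div_mul_cancel₀ _ h2'
      linear_combination 2 * aeval (0 : AlgebraicClosure k) (derivative C.h) * h5 - e2

theorem exists_nb (C : Hyp k g) (hg : 1 ≤ g) {K : Type} [Field K] [Algebra k K] (S : Finset K)
    (hS : 2 * g + 2 < S.card) : ∃ θ ∈ S, dsc C θ 1 ≠ 0 := by
  classical
  by_contra hcon
  push Not at hcon
  have hinj : Function.Injective (algebraMap k K) := (algebraMap k K).injective
  have hne : (dp C).map (algebraMap k K) ≠ 0 := (Polynomial.map_ne_zero_iff hinj).2 (dp_ne C hg)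
  have hsub : S ⊆ ((dp C).map (algebraMap k K)).roots.toFinset := by
    intro θ hθ
    rw [Multiset.mem_toFinset, mem_roots hne, IsRoot.def, eval_map_algebraMap, ← dsc_one]
    exact hcon θ hθ
  have h1 := Finset.card_le_card hsub
  have h2 := Multiset.toFinset_card_le ((dp C).map (algebraMap k K)).roots
  have h3 := Polynomial.card_roots' ((dp C).map (algebraMap k K))
  have h4 : ((dp C).map (algebraMap k K)).natDegree ≤ (dp C).natDegree := natDegree_map_le
  have h5 := dp_deg C
  omega

theorem exists_two [Fintype k] (C : Hyp k g) (hg : 1 ≤ g) (hq : 2 * g + 3 ≤ Fintype.card k) :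
    ∃ P Q : k × k, P.1 * Q.2 - P.2 * Q.1 ≠ 0 ∧ dsc C P.1 P.2 ≠ 0 ∧ dsc C Q.1 Q.2 ≠ 0 := by
  classical
  by_cases hc : (dp C).coeff (2 * g + 2) = 0
  · have hlt : (dp C).natDegree ≤ 2 * g + 1 := by
      by_contra hcon
      have h1 : (dp C).natDegree = 2 * g + 2 := le_antisymm (dp_deg C) (by omega)
      have h2 : (dp C).leadingCoeff = 0 := by rw [leadingCoeff, h1, hc]
      exact dp_ne C hg (leadingCoeff_eq_zero.1 h2)
    have hcard : ((dp C).roots.toFinset).card ≤ 2 * g + 1 :=
      (Multiset.toFinset_card_le _).trans ((Polynomial.card_roots' _).trans hlt)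
    have h2 : 1 < ((dp C).roots.toFinset)ᶜ.card := by
      rw [Finset.card_compl]
      omega
    obtain ⟨x, hx, x', hx', hxx⟩ := Finset.one_lt_card.1 h2
    have key : ∀ z ∈ ((dp C).roots.toFinset)ᶜ, dsc C z 1 ≠ 0 := by
      intro z hz h0
      rw [Finset.mem_compl, Multiset.mem_toFinset, mem_roots (dp_ne C hg), IsRoot.def] at hz
      apply hz
      rw [dsc_one] at h0
      simpa [aeval_def] using h0
    refine ⟨(x, 1), (x', 1), ?_, key x hx, key x' hx'⟩
    simpa [sub_eq_zero] using hxx
  · obtain ⟨θ, _, hθ⟩ := exists_nb C hg (K := k) Finset.univ (by rw [Finset.card_univ]; omega)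
    refine ⟨(θ, 1), (1, 0), by simp, hθ, ?_⟩
    rw [dsc_inf]
    simpa using hc

end Pool.Agent.H45.VM
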