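import Pool.Agent.H45.VM.NonB

/-!
# Powers

PROOF. `A = C Q.1 * X ^ l + C P.1`, `B = C Q.2 * X ^ l + C P.2` with two points `P`, `Q` of the line which are not branch points. The power map is injective on `k` and the map is ramified only over `P` and `Q`.
-/

namespace Pool.Agent.H45.VM

open Finset Polynomial Pool.Agent.H35.VQ

variable {k : Type} [Field k] {g : ℕ}

private lemma Pow_inj [Fintype k] (l : ℕ) (hl : 2 ≤ l)
    (hcop : Nat.Coprime l (Fintype.card k - 1)) (x x' : k) (h : x ^ l = x' ^ l) : x = x' := by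
  by_cases hx : x' = 0
  · rw [hx, zero_pow (by omega)] at h
    rw [hx]
    exact pow_eq_zero_iff (by omega) |>.1 h
  · have hx0 : x ≠ 0 := by
      rintro rfl
      rw [zero_pow (by omega)] at h
      exact hx ((pow_eq_zero_iff (by omega)).1 h.symm)
    have h1 : (x / x') ^ l = 1 := by rw [div_pow, h, div_self (pow_ne_zero _ hx)]
    have h2 : (x / x') ^ (Fintype.card k - 1) = 1 :=
      FiniteField.pow_card_sub_one_eq_one _ (div_ne_zero hx0 hx)
    have h3 : orderOf (x / x') ∣ Nat.gcd l (Fintype.card k - 1) :=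
      Nat.dvd_gcd (orderOf_dvd_of_pow_eq_one h1) (orderOf_dvd_of_pow_eq_one h2)
    rw [hcop.gcd_eq_one, Nat.dvd_one, orderOf_eq_one_iff] at h3
    exact (div_eq_one_iff_eq hx).1 h3

theorem adm_pow [Fintype k] (C : Hyp k g) (hg : 1 ≤ g) (hq : 2 * g + 3 ≤ Fintype.card k) (l : ℕ)
    (hl : 2 ≤ l) (hcop : Nat.Coprime l (Fintype.card k - 1)) (hlk : (l : k) ≠ 0) :
    ∃ A B : k[X], Adm C l A B := by
  obtain ⟨P, Q, hδ, hP, hQ⟩ := exists_two C hg hq
  have hcf : ∀ a b : k, (Polynomial.C a * X ^ l + Polynomial.C b).coeff l = a := by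
    intro a b
    rw [coeff_add, coeff_C_mul, coeff_X_pow_self, coeff_C, if_neg (by omega)]
    ring
  have hdeg : ∀ a b : k, (Polynomial.C a * X ^ l + Polynomial.C b).natDegree ≤ l := by
    intro a b
    refine natDegree_add_le_of_degree_le (natDegree_C_mul_X_pow_le _ _) ?_
    rw [natDegree_C]
    exact Nat.zero_le _
  refine ⟨Polynomial.C Q.1 * X ^ l + Polynomial.C P.1, Polynomial.C Q.2 * X ^ l + Polynomial.C P.2,
    ⟨hdeg _ _, hdeg _ _, ?_, ?_⟩, ?_, ?_⟩
  · intro x x' h
    simp only [eval_add, eval_mul, eval_C, eval_pow, eval_X] at h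
    have h1 : (P.1 * Q.2 - P.2 * Q.1) * (x ^ l - x' ^ l) = 0 := by linear_combination -h
    rcases mul_eq_zero.1 h1 with h2 | h2
    · exact absurd h2 hδ
    · exact Pow_inj l hl hcop x x' (sub_eq_zero.1 h2)
  · intro x h
    rw [hcf, hcf] at h
    simp only [eval_add, eval_mul, eval_C, eval_pow, eval_X] at h
    exact hδ (by linear_combination h)
  · intro z hz
    have h1 : derivative (Polynomial.C Q.1 * X ^ l + Polynomial.C P.1) *
        (Polynomial.C Q.2 * X ^ l + Polynomial.C P.2) -
        (Polynomial.C Q.1 * X ^ l + Polynomial.C P.1) *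
        derivative (Polynomial.C Q.2 * X ^ l + Polynomial.C P.2) =
        Polynomial.C (-((l : k) * (P.1 * Q.2 - P.2 * Q.1))) * X ^ (l - 1) := by
      simp only [derivative_add, derivative_mul, derivative_C, derivative_X_pow, zero_mul, zero_add,
        add_zero, map_neg, map_mul, map_sub, map_natCast]
      ring
    rw [h1] at hz
    simp only [map_mul, aeval_C, map_pow, aeval_X] at hz
    have h2 : z = 0 := by
      rcases mul_eq_zero.1 hz with h3 | h3
      · exfalso
        have h4 := (map_eq_zero (algebraMap k (AlgebraicClosure k))).1 h3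
        exact (neg_ne_zero.2 (mul_ne_zero hlk hδ)) h4
      · exact (pow_eq_zero_iff (by omega)).1 h3
    subst h2
    have hev : ∀ a b : k, aeval (0 : AlgebraicClosure k) (Polynomial.C a * X ^ l + Polynomial.C b) =
        (Algebra.ofId k (AlgebraicClosure k)) b := by
      intro a b
      simp only [map_add, map_mul, map_pow, aeval_X, aeval_C]
      rw [zero_pow (by omega), mul_zero, zero_add]
      rfl
    rw [hev, hev, ← dsc_map]
    intro h3
    exact hP ((map_eq_zero (algebraMap k (AlgebraicClosure k))).1 h3)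
  · intro _
    rw [hcf, hcf]
    exact hQ

end Pool.Agent.H45.VM
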