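import Pool.Agent.H45.VM.BfB
import Pool.Agent.H45.VM.Fib

/-!
# A pullback by an exceptional map has the same number of points

PROOF. Points of the projective line over `k`: `Option k`, `rep (some x) = (x, 1)`, `rep none = (1, 0)`; `cls (a, b) = some (a / b)` if
`b ≠ 0`, `none` otherwise. By `fib_smul`, `fib C a b = fib C (rep (cls (a, b)))` for `(a, b) ≠ (0, 0)`
(`(a, b) = b (a / b, 1)` resp. `(a, 0) = a (1, 0)`). Let `Φ : Option k → Option k`, `Φ (some x) = cls (A(x), B(x))`,
`Φ none = cls (A_n, B_n)`. By `inf` these vectors are not zero. `Φ` is injective: `cls (a, b) = cls (a', b')` (nonzero vectors) gives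
`a b' = a' b`, so `inj` and `inf` apply; hence bijective (`Finite.injective_iff_bijective`). `numPoints_eq` for `C'`, with
`bf_map` for `aeval x` (values of `C'.h`, `C'.f` at `x`; here use `fib C' x 1`, `bf_one`, degrees from `C'.deg_h`, `C'.deg_f`, note
`n (g + 1) - 1 + 1 = n (g + 1)`) and `coeff_bf` (at `(1, 0)`, `bf_inf`; `n * (2 g + 2) = 2 (n (g + 1) - 1) + 2`):
`fib C' x 1 = fib C (A x) (B x)`, `fib C' 1 0 = fib C A_n B_n`. So `numPoints C' = ∑ o : Option k, fib C (rep (Φ o)) =
∑ o, fib C (rep o) = numPoints C` (`Fintype.sum_option`, `Equiv.sum_comp`).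
-/

namespace Pool.Agent.H45.VM

open Finset Polynomial Pool.Agent.H35.VQ

variable {k : Type} [Field k]

/-- representatives of the points of the projective line -/
private def rp : Option k → k × k
  | some x => (x, 1)
  | none => (1, 0)

open Classical in
/-- the class of a vector -/
private noncomputable def cl (a b : k) : Option k := if b = 0 then none else some (a / b)

private lemma fib_cl {g : ℕ} (C : Hyp k g) {a b : k} (h : ¬ (a = 0 ∧ b = 0)) :
    fib C (rp (cl a b)).1 (rp (cl a b)).2 = fib C a b := by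
  unfold cl
  split_ifs with hb
  · have ha : a ≠ 0 := fun h0 => h ⟨h0, hb⟩
    change fib C 1 0 = fib C a b
    have h1 := fib_smul C ha 1 0
    rw [mul_one, mul_zero] at h1
    rw [hb]
    exact h1.symm
  · change fib C (a / b) 1 = fib C a b
    have h1 := fib_smul C hb (a / b) 1
    rw [mul_one, mul_div_cancel₀ _ hb] at h1
    exact h1.symm

private lemma cl_eq {a b a' b' : k} (e : cl a b = cl a' b') : a * b' = a' * b := by
  unfold cl at e
  by_cases h1 : b = 0
  · by_cases h2 : b' = 0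
    · rw [h1, h2, mul_zero, mul_zero]
    · rw [if_pos h1, if_neg h2] at e
      exact absurd e.symm (Option.some_ne_none _)
  · by_cases h2 : b' = 0
    · rw [if_neg h1, if_pos h2] at e
      exact absurd e (Option.some_ne_none _)
    · rw [if_neg h1, if_neg h2] at e
      have h3 := Option.some.inj e
      rwa [div_eq_div_iff h1 h2] at h3

/-- the map of the projective line -/
private noncomputable def Ph (n : ℕ) (A B : k[X]) : Option k → Option k
  | some x => cl (A.eval x) (B.eval x)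
  | none => cl (A.coeff n) (B.coeff n)

private lemma ne1 {n : ℕ} {A B : k[X]} (E : Exc k n A B) (x : k) :
    ¬ (A.eval x = 0 ∧ B.eval x = 0) := by
  rintro ⟨h1, h2⟩
  apply E.inf x
  rw [h1, h2, zero_mul, mul_zero]

private lemma ne2 {n : ℕ} {A B : k[X]} (E : Exc k n A B) :
    ¬ (A.coeff n = 0 ∧ B.coeff n = 0) := by
  rintro ⟨h1, h2⟩
  apply E.inf 0
  rw [h1, h2, zero_mul, mul_zero]

private lemma Ph_inj {n : ℕ} {A B : k[X]} (E : Exc k n A B) : Function.Injective (Ph n A B) := by
  rintro (_ | x) (_ | y) h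
  · rfl
  · exfalso
    have h1 : cl (A.coeff n) (B.coeff n) = cl (A.eval y) (B.eval y) := h
    exact E.inf y (cl_eq h1).symm
  · exfalso
    have h1 : cl (A.eval x) (B.eval x) = cl (A.coeff n) (B.coeff n) := h
    exact E.inf x (cl_eq h1)
  · have h1 : cl (A.eval x) (B.eval x) = cl (A.eval y) (B.eval y) := h
    rw [E.inj x y (cl_eq h1)]

private lemma fib_some {g : ℕ} (C : Hyp k g) {n : ℕ} (hn : 1 ≤ n) {A B : k[X]}
    (C' : Hyp k (n * (g + 1) - 1)) (hh : C'.h = bf (g + 1) C.h A B)
    (hf : C'.f = bf (2 * g + 2) C.f A B) (x : k) :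
    fib C' x 1 = fib C (A.eval x) (B.eval x) := by
  have e1 : bf (n * (g + 1) - 1 + 1) C'.h x 1 = bf (g + 1) C.h (A.eval x) (B.eval x) := by
    rw [bf_one C'.deg_h, hh, bf_map]
    rfl
  have e2 : bf (2 * (n * (g + 1) - 1) + 2) C'.f x 1 =
      bf (2 * g + 2) C.f (A.eval x) (B.eval x) := by
    rw [bf_one C'.deg_f, hf, bf_map]
    rfl
  unfold fib
  rw [e1, e2]

private lemma fib_none {g : ℕ} (C : Hyp k g) {n : ℕ} (hn : 1 ≤ n) {A B : k[X]}
    (E : Exc k n A B) (C' : Hyp k (n * (g + 1) - 1)) (hh : C'.h = bf (g + 1) C.h A B)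
    (hf : C'.f = bf (2 * g + 2) C.f A B) :
    fib C' 1 0 = fib C (A.coeff n) (B.coeff n) := by
  have hp : 1 ≤ n * (g + 1) := Nat.mul_pos hn (Nat.succ_pos g)
  have n1 : n * (g + 1) - 1 + 1 = n * (g + 1) := by omega
  have n2 : 2 * (n * (g + 1) - 1) + 2 = n * (2 * g + 2) := by
    have : n * (2 * g + 2) = 2 * (n * (g + 1)) := by ring
    omega
  have e1 : bf (n * (g + 1) - 1 + 1) C'.h (1 : k) 0 =
      bf (g + 1) C.h (A.coeff n) (B.coeff n) := by
    rw [bf_inf, n1, hh, coeff_bf (g + 1) C.h E.degA E.degB]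
    rfl
  have e2 : bf (2 * (n * (g + 1) - 1) + 2) C'.f (1 : k) 0 =
      bf (2 * g + 2) C.f (A.coeff n) (B.coeff n) := by
    rw [bf_inf, n2, hf, coeff_bf (2 * g + 2) C.f E.degA E.degB]
    rfl
  unfold fib
  rw [e1, e2]

theorem numPoints_pullback [Finite k] {g : ℕ} (C : Hyp k g) {n : ℕ} (hn : 1 ≤ n) {A B : k[X]}
    (E : Exc k n A B) (C' : Hyp k (n * (g + 1) - 1)) (hh : C'.h = bf (g + 1) C.h A B)
    (hf : C'.f = bf (2 * g + 2) C.f A B) : C'.numPoints = C.numPoints := by
  cases nonempty_fintype k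
  rw [numPoints_eq C', numPoints_eq C]
  have hb : Function.Bijective (Ph n A B) := Finite.injective_iff_bijective.1 (Ph_inj E)
  have h1 : ∑ o : Option k, fib C (rp (Ph n A B o)).1 (rp (Ph n A B o)).2 =
      ∑ o : Option k, fib C (rp o).1 (rp o).2 :=
    (Equiv.ofBijective _ hb).sum_comp fun o => fib C (rp o).1 (rp o).2
  rw [Fintype.sum_option, Fintype.sum_option] at h1
  have h2 : ∀ x : k, fib C (rp (Ph n A B (some x))).1 (rp (Ph n A B (some x))).2 = fib C' x 1 := by
    intro x
    rw [fib_some C hn C' hh hf x]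
    exact fib_cl C (ne1 E x)
  have h3 : fib C (rp (Ph n A B none)).1 (rp (Ph n A B none)).2 = fib C' 1 0 := by
    rw [fib_none C hn E C' hh hf]
    exact fib_cl C (ne2 E)
  rw [Finset.sum_congr rfl fun x _ => h2 x, h3] at h1
  have h4 : ∑ x : k, fib C (rp (some x)).1 (rp (some x)).2 = ∑ x : k, fib C x 1 := rfl
  have h5 : fib C (rp (none : Option k)).1 (rp (none : Option k)).2 = fib C 1 0 := rfl
  rw [h4, h5] at h1
  omega

end Pool.Agent.H45.VM
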