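import Pool.Agent.H45.VM.BfA

/-!
# Smoothness of a model at all points of the projective line, tangent vector form

PROOF. Let `K` be the algebraic closure, `(a, b) ≠ 0` (which follows from `a v - b u ≠ 0`), `H = bf (g + 1) C.h a b`,
`F = bf (2 g + 2) C.f a b`, `y² + H y = F`, `2 y + H = 0`, `α = H₁ y - F₁`, `β = H₂ y - F₂` (index: partial derivative). Euler
(`bf_euler`): `a α + b β = (g + 1) H y - (2 g + 2) F = (g + 1) (H y - 2 F) = (g + 1) (H y - 2 y² - 2 H y) = - (g + 1) y (2 y + H)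
= 0`. If `α u + β v = 0` too, then `(α, β)` is killed by the matrix with rows `(a, b)`, `(u, v)` of determinant
`a v - b u ≠ 0`: `α = β = 0` (multiply: `(a v - b u) α = v (a α + b β) - b (u α + v β) = 0`). It remains to see that `α = β = 0` is
impossible:
* `b ≠ 0`: `x = a / b`, `y' = y / b ^ (g + 1)`. With `bf_smul` (`c = 1 / b`, `bf_one`): `h(x) = H / b ^ (g + 1)`,
  `f(x) = F / b ^ (2 g + 2)`, so `y'² + h(x) y' = f(x)` and `2 y' + h(x) = 0`; with `bf1_smul`, `bf1_one`: `h'(x) = H₁ / b ^ g`,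
  `f'(x) = F₁ / b ^ (2 g + 1)`, so `h'(x) y' = H₁ y / b ^ (2 g + 1) = F₁ / b ^ (2 g + 1) = f'(x)`, contradiction to `C.smooth x y'`.
* `b = 0`, `a ≠ 0`: `w = y / a ^ (g + 1)`, `bf_inf`, `bf2_inf` (`d = g + 1`, `d = 2 g + 2`, both `≥ 1`), `bf2_smul`: contradiction to
  `C.smooth_infty w`.
-/

namespace Pool.Agent.H45.VM

open Finset Polynomial Pool.Agent.H35.VQ

variable {k : Type} [Field k]

theorem hyp_smooth {g : ℕ} (C : Hyp k g) {a b u v y : AlgebraicClosure k}
    (huv : a * v - b * u ≠ 0) (h0 : y ^ 2 + bf (g + 1) C.h a b * y = bf (2 * g + 2) C.f a b)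
    (h1 : 2 * y + bf (g + 1) C.h a b = 0) :
    (bf1 (g + 1) C.h a b * u + bf2 (g + 1) C.h a b * v) * y ≠
      bf1 (2 * g + 2) C.f a b * u + bf2 (2 * g + 2) C.f a b * v := by
  intro heq
  have e1 := bf_euler (g + 1) C.h a b
  have e2 := bf_euler (2 * g + 2) C.f a b
  push_cast at e1 e2
  set H := bf (g + 1) C.h a b with hH
  set F := bf (2 * g + 2) C.f a b with hF
  set H1 := bf1 (g + 1) C.h a b with hH1
  set H2 := bf2 (g + 1) C.h a b with hH2
  set F1 := bf1 (2 * g + 2) C.f a b with hF1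
  set F2 := bf2 (2 * g + 2) C.f a b with hF2
  have k1 : a * (H1 * y - F1) + b * (H2 * y - F2) = 0 := by
    linear_combination y * e1 - e2 + (2 * (g : AlgebraicClosure k) + 2) * h0
      - ((g : AlgebraicClosure k) + 1) * y * h1
  have k2 : u * (H1 * y - F1) + v * (H2 * y - F2) = 0 := by
    linear_combination heq
  have hα : H1 * y = F1 := by
    have h2 : (a * v - b * u) * (H1 * y - F1) = 0 := by
      linear_combination v * k1 - b * k2
    exact sub_eq_zero.1 ((mul_eq_zero.1 h2).resolve_left huv)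
  have hβ : H2 * y = F2 := by
    have h2 : (a * v - b * u) * (H2 * y - F2) = 0 := by
      linear_combination a * k2 - u * k1
    exact sub_eq_zero.1 ((mul_eq_zero.1 h2).resolve_left huv)
  by_cases hb : b = 0
  · have ha : a ≠ 0 := by
      intro ha
      apply huv
      rw [ha, hb]
      ring
    obtain ⟨c, hc⟩ : ∃ c, c = a⁻¹ := ⟨_, rfl⟩
    have hca : c * a = 1 := by
      rw [hc]
      exact inv_mul_cancel₀ ha
    have hcb : c * b = 0 := by rw [hb, mul_zero]
    have s1 := bf_smul (g + 1) C.h c a b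
    have s2 := bf_smul (2 * g + 2) C.f c a b
    have s3 := bf2_smul (g + 1) C.h c a b
    have s4 := bf2_smul (2 * g + 2) C.f c a b
    rw [hca, hcb, bf_inf, ← hH] at s1
    rw [hca, hcb, bf_inf, ← hF] at s2
    rw [hca, hcb, bf2_inf (by omega), ← hH2] at s3
    rw [hca, hcb, bf2_inf (by omega), ← hF2] at s4
    have t1 : g + 1 - 1 = g := by omega
    have t2 : 2 * g + 2 - 1 = 2 * g + 1 := by omega
    rw [t1] at s3
    rw [t2] at s4
    rcases C.smooth_infty (c ^ (g + 1) * y) (by
      rw [s1, s2]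
      linear_combination (c ^ (2 * g + 2)) * h0) with h | h
    · apply h
      rw [s1]
      linear_combination (c ^ (g + 1)) * h1
    · apply h
      rw [s3, s4]
      linear_combination (c ^ (2 * g + 1)) * hβ
  · obtain ⟨c, hc⟩ : ∃ c, c = b⁻¹ := ⟨_, rfl⟩
    have hcb : c * b = 1 := by
      rw [hc]
      exact inv_mul_cancel₀ hb
    have s1 := bf_smul (g + 1) C.h c a b
    have s2 := bf_smul (2 * g + 2) C.f c a b
    have s3 := bf1_smul (g + 1) C.h c a b
    have s4 := bf1_smul (2 * g + 2) C.f c a b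
    rw [hcb, bf_one C.deg_h, ← hH] at s1
    rw [hcb, bf_one C.deg_f, ← hF] at s2
    rw [hcb, bf1_one C.deg_h, ← hH1] at s3
    rw [hcb, bf1_one C.deg_f, ← hF1] at s4
    have t1 : g + 1 - 1 = g := by omega
    have t2 : 2 * g + 2 - 1 = 2 * g + 1 := by omega
    rw [t1] at s3
    rw [t2] at s4
    rcases C.smooth (c * a) (c ^ (g + 1) * y) (by
      rw [s1, s2]
      linear_combination (c ^ (2 * g + 2)) * h0) with h | h
    · apply h
      rw [s1]
      linear_combination (c ^ (g + 1)) * h1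
    · apply h
      rw [s3, s4]
      linear_combination (c ^ (2 * g + 1)) * hα

end Pool.Agent.H45.VM
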