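import Pool.Agent.H45.VM.BfB
import Pool.Agent.H45.VM.Smo

/-!
# The pullback of a model

PROOF. `h' = bf (g + 1) C.h A B`, `f' = bf (2 g + 2) C.f A B`; `n (g + 1) - 1 + 1 = n (g + 1)` and
`2 (n (g + 1) - 1) + 2 = n (2 g + 2)` (`n, g + 1 ≥ 1`), so the degrees are right by `natDegree_bf`.
`smooth`: let `x`, `y` be a point with `2 y + h'(x) = 0`, `a = A(x)`, `b = B(x)` (`aeval`); `h'(x) = bf (g + 1) C.h a b`, same for
`f'` (`bf_map` for `aeval x`). Then `dsc C a b = h'(x)² + 4 f'(x) = h'(x)² + 4 y² + 4 h'(x) y = (2 y + h'(x))² = 0`, so by `unram`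
`A'(x) B(x) - A(x) B'(x) ≠ 0`; `hyp_smooth` with `u = A'(x)`, `v = B'(x)` and `deriv_bf` (mapped by `aeval x`, `bf1_map`,
`bf2_map`) give `h''(x) y ≠ f''(x)` (derivatives).
`smooth_infty`: the same with `a = A_n`, `b = B_n`, `u = A_(n-1)`, `v = B_(n-1)` (in the algebraic closure, by `algebraMap`), the
coefficients by `coeff_bf`, `coeff_bf'` (`n (g + 1) - 1 = G`, and `2 G + 1 = n (2 g + 2) - 1`) and `bf_map`, `bf1_map`, `bf2_map` for
`Algebra.ofId k (AlgebraicClosure k)` (or prove the needed `algebraMap` forms directly); `unram_inf` is used through the injectivity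
of `algebraMap`. `n = 1` is allowed: `n - 1 = 0`.
-/

namespace Pool.Agent.H45.VM

open Finset Polynomial Pool.Agent.H35.VQ

variable {k : Type} [Field k]

private theorem pul_bf (x : AlgebraicClosure k) (d : ℕ) (P A B : k[X]) :
    aeval x (bf d P A B) = bf d P (aeval x A) (aeval x B) := bf_map (aeval x) d P A B

private theorem pul_der (x : AlgebraicClosure k) (d : ℕ) (P A B : k[X]) :
    aeval x (derivative (bf d P A B)) = bf1 d P (aeval x A) (aeval x B) * aeval x (derivative A) +
      bf2 d P (aeval x A) (aeval x B) * aeval x (derivative B) := by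
  rw [deriv_bf, map_add, map_mul, map_mul, bf1_map (aeval x), bf2_map (aeval x)]

private theorem pul_amap (d : ℕ) (P : k[X]) (a b : k) :
    algebraMap k (AlgebraicClosure k) (bf d P a b) =
      bf d P (algebraMap k (AlgebraicClosure k) a) (algebraMap k (AlgebraicClosure k) b) :=
  bf_map (Algebra.ofId k (AlgebraicClosure k)) d P a b

private theorem pul_amap1 (d : ℕ) (P : k[X]) (a b : k) :
    algebraMap k (AlgebraicClosure k) (bf1 d P a b) =
      bf1 d P (algebraMap k (AlgebraicClosure k) a) (algebraMap k (AlgebraicClosure k) b) :=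
  bf1_map (Algebra.ofId k (AlgebraicClosure k)) d P a b

private theorem pul_amap2 (d : ℕ) (P : k[X]) (a b : k) :
    algebraMap k (AlgebraicClosure k) (bf2 d P a b) =
      bf2 d P (algebraMap k (AlgebraicClosure k) a) (algebraMap k (AlgebraicClosure k) b) :=
  bf2_map (Algebra.ofId k (AlgebraicClosure k)) d P a b

theorem pullback {g : ℕ} (C : Hyp k g) {n : ℕ} (hn : 1 ≤ n) {A B : k[X]} (E : Adm C n A B) :
    ∃ C' : Hyp k (n * (g + 1) - 1), C'.h = bf (g + 1) C.h A B ∧ C'.f = bf (2 * g + 2) C.f A B := by
  have hG : 1 ≤ n * (g + 1) := Nat.mul_pos hn (Nat.succ_pos g)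
  have e1 : n * (g + 1) - 1 + 1 = n * (g + 1) := Nat.sub_add_cancel hG
  have e2' : n * (2 * g + 2) = 2 * (n * (g + 1)) := by ring
  have e2 : 2 * (n * (g + 1) - 1) + 2 = n * (2 * g + 2) := by omega
  have e3 : 2 * (n * (g + 1) - 1) + 1 = n * (2 * g + 2) - 1 := by omega
  refine ⟨{ h := bf (g + 1) C.h A B
            f := bf (2 * g + 2) C.f A B
            deg_h := ?_
            deg_f := ?_
            smooth := ?_
            smooth_infty := ?_ }, rfl, rfl⟩
  · rw [e1]
    exact natDegree_bf (g + 1) C.h E.exc.degA E.exc.degB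
  · rw [e2]
    exact natDegree_bf (2 * g + 2) C.f E.exc.degA E.exc.degB
  · intro x y h0
    by_cases h1 : 2 * y + aeval x (bf (g + 1) C.h A B) = 0
    swap
    · exact Or.inl h1
    right
    rw [pul_bf, pul_bf] at h0
    rw [pul_bf] at h1
    have hd : dsc C (aeval x A) (aeval x B) = 0 := by
      unfold dsc
      rw [← h0]
      linear_combination (2 * y + bf (g + 1) C.h (aeval x A) (aeval x B)) * h1
    have hu : aeval x A * aeval x (derivative B) - aeval x B * aeval x (derivative A) ≠ 0 := by
      intro h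
      refine E.unram x ?_ hd
      rw [map_sub, map_mul, map_mul]
      linear_combination -h
    rw [pul_der, pul_der]
    exact hyp_smooth C hu h0 h1
  · intro w h0
    rw [e1, e2, coeff_bf (g + 1) C.h E.exc.degA E.exc.degB,
      coeff_bf (2 * g + 2) C.f E.exc.degA E.exc.degB, pul_amap, pul_amap] at h0
    rw [e1, e3, coeff_bf (g + 1) C.h E.exc.degA E.exc.degB, pul_amap,
      coeff_bf' hn (Nat.succ_pos g) C.h E.exc.degA E.exc.degB,
      coeff_bf' hn (by omega : 1 ≤ 2 * g + 2) C.f E.exc.degA E.exc.degB, map_add, map_mul, map_mul,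
      map_add, map_mul, map_mul, pul_amap1, pul_amap2, pul_amap1, pul_amap2]
    by_cases h1 : 2 * w + bf (g + 1) C.h (algebraMap k (AlgebraicClosure k) (A.coeff n))
        (algebraMap k (AlgebraicClosure k) (B.coeff n)) = 0
    swap
    · exact Or.inl h1
    right
    have hd : dsc C (A.coeff n) (B.coeff n) = 0 := by
      apply (algebraMap k (AlgebraicClosure k)).injective
      unfold dsc
      rw [map_zero, map_add, map_pow, map_mul, pul_amap, pul_amap, ← h0]
      simp only [map_ofNat]
      linear_combination (2 * w + bf (g + 1) C.h (algebraMap k (AlgebraicClosure k) (A.coeff n))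
        (algebraMap k (AlgebraicClosure k) (B.coeff n))) * h1
    have hu : algebraMap k (AlgebraicClosure k) (A.coeff n) *
        algebraMap k (AlgebraicClosure k) (B.coeff (n - 1)) -
        algebraMap k (AlgebraicClosure k) (B.coeff n) *
        algebraMap k (AlgebraicClosure k) (A.coeff (n - 1)) ≠ 0 := by
      intro h
      refine E.unram_inf ?_ hd
      apply (algebraMap k (AlgebraicClosure k)).injective
      rw [map_zero, map_sub, map_mul, map_mul]
      linear_combination -h
    exact hyp_smooth C hu h0 h1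

end Pool.Agent.H45.VM
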