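import Mathlib

/-!
# The functions of Redei

PROOF. `q = card k`, `K` a quadratic extension of `k`, `θ ∈ K` not in `k`; `1`, `θ` is a basis (`finrank = 2`): every element of `K` is
`a + b θ` with unique `a, b ∈ k` (existence: `1, θ` linearly independent and `finrank k K = 2`). Take the coefficients of `(X - C θ) ^ l` apart:
`(X - C θ) ^ l = A - θ B` with `A, B ∈ k[X]` of degree at most `l`; the coefficient of `X ^ l` is `1 = 1 - 0 θ`, that of `X ^ (l-1)` is
`- l θ = 0 - l θ` (`Polynomial.coeff_X_sub_C_pow` or `coeff_X_add_C_pow`), so `A_l = 1`, `B_l = 0`, `A_(l-1) = 0`, `B_(l-1) = l`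
(`l ≥ 1`; by uniqueness).
-/

namespace Pool.Agent.H45.VM

open Finset Polynomial

variable {k : Type} [Field k]

private theorem redA_unique {K : Type} [Field K] [Algebra k K] {θ : K}
    (hθ : ∀ x : k, algebraMap k K x ≠ θ) {a b a' b' : k}
    (h : algebraMap k K a - θ * algebraMap k K b = algebraMap k K a' - θ * algebraMap k K b') :
    a = a' ∧ b = b' := by
  have h1 : θ * algebraMap k K (b - b') = algebraMap k K (a - a') := by
    rw [map_sub, map_sub]
    linear_combination (-1 : K) * h
  have hb : b - b' = 0 := by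
    by_contra hne
    have hne' : algebraMap k K (b - b') ≠ 0 := by
      rw [Ne, map_eq_zero]
      exact hne
    apply hθ ((a - a') / (b - b'))
    rw [map_div₀, ← h1, mul_div_assoc, div_self hne', mul_one]
  rw [hb, map_zero, mul_zero] at h1
  have ha : a - a' = 0 := by
    have := h1.symm
    rwa [map_eq_zero] at this
  exact ⟨sub_eq_zero.1 ha, sub_eq_zero.1 hb⟩

private theorem redA_exists {K : Type} [Field K] [Algebra k K] (h2 : Module.finrank k K = 2) {θ : K}
    (hθ : ∀ x : k, algebraMap k K x ≠ θ) (z : K) :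
    ∃ a b : k, z = algebraMap k K a - θ * algebraMap k K b := by
  have hli : LinearIndependent k ![(1 : K), θ] := by
    rw [LinearIndependent.pair_iff]
    intro s t hst
    have h3 : algebraMap k K s - θ * algebraMap k K (-t) =
        algebraMap k K 0 - θ * algebraMap k K 0 := by
      rw [map_neg, map_zero]
      rw [Algebra.smul_def, Algebra.smul_def] at hst
      linear_combination hst
    obtain ⟨h4, h5⟩ := redA_unique hθ h3
    exact ⟨h4, neg_eq_zero.1 h5⟩
  have hsp := hli.span_eq_top_of_card_eq_finrank (by rw [h2]; simp)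
  have hr : Set.range ![(1 : K), θ] = {1, θ} := by
    rw [Matrix.range_cons, Matrix.range_cons, Matrix.range_empty, Set.union_empty]
    rfl
  rw [hr] at hsp
  have hz : z ∈ Submodule.span k ({1, θ} : Set K) := by rw [hsp]; trivial
  obtain ⟨a, b, hab⟩ := Submodule.mem_span_pair.1 hz
  refine ⟨a, -b, ?_⟩
  rw [← hab, Algebra.smul_def, Algebra.smul_def, map_neg]
  ring

theorem exists_split {K : Type} [Field K] [Algebra k K] (h2 : Module.finrank k K = 2) {θ : K}
    (hθ : ∀ x : k, algebraMap k K x ≠ θ) {l : ℕ} (hl : 1 ≤ l) :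
    ∃ A B : k[X], A.natDegree ≤ l ∧ B.natDegree ≤ l ∧
      (X - C θ) ^ l = A.map (algebraMap k K) - C θ * B.map (algebraMap k K) ∧
      A.coeff l = 1 ∧ B.coeff l = 0 ∧ A.coeff (l - 1) = 0 ∧ B.coeff (l - 1) = l := by
  choose fa fb hf using fun z : K => redA_exists h2 hθ z
  have hu : ∀ (z : K) (a b : k), z = algebraMap k K a - θ * algebraMap k K b → fa z = a ∧ fb z = b := by
    intro z a b hz
    apply redA_unique hθ
    rw [← hf z]
    exact hz
  have hu0 : fa 0 = 0 ∧ fb 0 = 0 := hu 0 0 0 (by simp)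
  have hco : ∀ (j : ℕ), ((X - C θ) ^ l : K[X]).coeff j = (-θ) ^ (l - j) * (l.choose j : K) :=
    fun j => by
      rw [sub_eq_add_neg, ← C_neg]
      exact coeff_X_add_C_pow (-θ) l j
  have hco0 : ∀ j, l < j → ((X - C θ) ^ l : K[X]).coeff j = 0 := by
    intro j hj
    rw [hco, Nat.choose_eq_zero_of_lt hj, Nat.cast_zero, mul_zero]
  have hsum : ∀ (F : K → k), F 0 = 0 → ∀ j,
      (∑ i ∈ range (l + 1), monomial i (F (((X - C θ) ^ l : K[X]).coeff i))).coeff j =
        F (((X - C θ) ^ l : K[X]).coeff j) := by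
    intro F hF j
    rw [finsetSum_coeff]
    simp only [coeff_monomial]
    rw [Finset.sum_ite_eq' (range (l + 1)) j]
    split_ifs with hj
    · rfl
    · have hj' : l < j := by
        by_contra hcon
        exact hj (Finset.mem_range.2 (by omega))
      rw [hco0 j hj', hF]
  have hdeg : ∀ (F : K → k),
      (∑ i ∈ range (l + 1), monomial i (F (((X - C θ) ^ l : K[X]).coeff i))).natDegree ≤ l := by
    intro F
    apply natDegree_sum_le_of_forall_le
    intro i hi
    exact (natDegree_monomial_le _).trans (by have := Finset.mem_range.1 hi; omega)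
  have hl1 : ((X - C θ) ^ l : K[X]).coeff l = 1 := by
    rw [hco, Nat.sub_self, pow_zero, Nat.choose_self, Nat.cast_one, mul_one]
  have hl2 : ((X - C θ) ^ l : K[X]).coeff (l - 1) = -θ * l := by
    have e1 : l - (l - 1) = 1 := by omega
    have e2 : l.choose (l - 1) = l := by
      obtain ⟨m, rfl⟩ : ∃ m, l = m + 1 := ⟨l - 1, by omega⟩
      rw [Nat.add_sub_cancel, Nat.choose_succ_self_right]
    rw [hco, e1, e2, pow_one]
  have hu1 := hu 1 1 0 (by simp)
  have hu2 := hu (-θ * l) 0 (l : k) (by simp)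
  refine ⟨_, _, hdeg fa, hdeg fb, ?_, ?_, ?_, ?_, ?_⟩
  · ext j
    rw [coeff_sub, coeff_C_mul, coeff_map, coeff_map, hsum fa hu0.1, hsum fb hu0.2]
    exact hf _
  · rw [hsum fa hu0.1, hl1]
    exact hu1.1
  · rw [hsum fb hu0.2, hl1]
    exact hu1.2
  · rw [hsum fa hu0.1, hl2]
    exact hu2.1
  · rw [hsum fb hu0.2, hl2]
    exact hu2.2

end Pool.Agent.H45.VM
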