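import Mathlib

/-!
# The functions of Redei are exceptional

PROOF. `q = card k`, `card K = q²`, `θ ∉ k`, `(X - θ) ^ l = A - θ B`, `l` prime to `q + 1`.
Key: if `ρ ∈ K`, `ρ ≠ 0` and `ρ ^ l ∈ k` then `ρ ∈ k`: `(ρ ^ l) ^ (q - 1) = 1`, so `σ = ρ ^ (q - 1)` has `σ ^ l = 1` and
`σ ^ (q + 1) = ρ ^ (q² - 1) = 1`, hence `σ = 1` (`pow_gcd_eq_one`) and `ρ ^ q = ρ`, so `ρ ∈ k` (the elements with `ρ ^ q = ρ` are the `q`
elements of `k`: `FiniteField.X_pow_card_sub_X` roots, or `H35/VQ`: `mem_of_pow_card`).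
`red_inj`: let `A(x) B(x') = A(x') B(x)`, `u = (x - θ) ^ l = A(x) - θ B(x)`, `u' = (x' - θ) ^ l` (both `≠ 0`, evaluate the polynomial identity at
`algebraMap x`). The vectors `(A(x), B(x))`, `(A(x'), B(x'))` are not zero and proportional over `k`: `u = s u'` with `s ∈ k`, so
`ρ = (x - θ) / (x' - θ)` has `ρ ^ l = s ∈ k`, `ρ ∈ k`, and `x - θ = ρ (x' - θ)` gives `(ρ - 1) θ ∈ k`, so `ρ = 1`, `x = x'`.
`red_inf`: `B(x) = 0` gives `(x - θ) ^ l = A(x) ∈ k`, so `x - θ ∈ k`, impossible.
-/

namespace Pool.Agent.H45.VM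

open Finset Polynomial

variable {k : Type} [Field k] [Fintype k]

private theorem redb_prod : (∏ x : k, (X - C x) : k[X]) = X ^ Fintype.card k - X := by
  have hm : (X ^ Fintype.card k - X : k[X]).Monic := by
    apply Polynomial.monic_X_pow_sub
    rw [Polynomial.degree_X]
    exact_mod_cast (Fintype.one_lt_card : 1 < Fintype.card k)
  have hr := FiniteField.roots_X_pow_card_sub_X k
  have h := Polynomial.prod_multiset_X_sub_C_of_monic_of_roots_card_eq hm (by
    rw [hr, FiniteField.X_pow_card_sub_X_natDegree_eq k Fintype.one_lt_card]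
    rfl)
  rw [hr] at h
  exact h

private theorem redb_mem (K : Type) [Field K] [Algebra k K] (θ : K)
    (h : θ ^ Fintype.card k - θ = 0) : ∃ x : k, algebraMap k K x = θ := by
  have hr : (Polynomial.map (algebraMap k K) (X ^ Fintype.card k - X)) =
      ∏ x : k, (X - C (algebraMap k K x)) := by
    rw [← redb_prod, Polynomial.map_prod]
    simp
  have h1 : (Polynomial.map (algebraMap k K) (X ^ Fintype.card k - X)).eval θ = 0 := by
    simpa using h
  rw [hr, Polynomial.eval_prod, Finset.prod_eq_zero_iff] at h1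
  obtain ⟨x, _, hx⟩ := h1
  refine ⟨x, ?_⟩
  rw [Polynomial.eval_sub, Polynomial.eval_X, Polynomial.eval_C, sub_eq_zero] at hx
  exact hx.symm

private theorem redb_key {K : Type} [Field K] [Fintype K] [Algebra k K]
    (h2 : Fintype.card K = Fintype.card k ^ 2) {l : ℕ}
    (hcop : Nat.Coprime l (Fintype.card k + 1)) {ρ : K} (hρ : ρ ≠ 0) {s : k}
    (hs : ρ ^ l = algebraMap k K s) : ∃ y : k, algebraMap k K y = ρ := by
  obtain ⟨q, hq⟩ : ∃ q, Fintype.card k = q + 1 := ⟨Fintype.card k - 1, by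
    have : 0 < Fintype.card k := Fintype.card_pos
    omega⟩
  have hs0 : s ≠ 0 := by
    rintro rfl
    rw [map_zero] at hs
    exact pow_ne_zero l hρ hs
  have h1 : (ρ ^ q) ^ l = 1 := by
    rw [← pow_mul, mul_comm, pow_mul, hs, ← map_pow]
    have h3 : s ^ q = 1 := by
      have := FiniteField.pow_card_sub_one_eq_one s hs0
      rwa [hq, Nat.add_sub_cancel] at this
    rw [h3, map_one]
  have h3 : (ρ ^ q) ^ (Fintype.card k + 1) = 1 := by
    have h4 := FiniteField.pow_card_sub_one_eq_one ρ hρ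
    rw [h2, hq] at h4
    rw [← pow_mul, hq]
    have h5 : (q + 1) ^ 2 - 1 = q * (q + 1 + 1) := by
      have : (q + 1) ^ 2 = q * (q + 1 + 1) + 1 := by ring
      omega
    rwa [h5] at h4
  have h4 : orderOf (ρ ^ q) ∣ Nat.gcd l (Fintype.card k + 1) :=
    Nat.dvd_gcd (orderOf_dvd_of_pow_eq_one h1) (orderOf_dvd_of_pow_eq_one h3)
  rw [Nat.Coprime] at hcop
  rw [hcop, Nat.dvd_one, orderOf_eq_one_iff] at h4
  apply redb_mem
  rw [hq, pow_succ, h4, one_mul, sub_self]

theorem red_inj {K : Type} [Field K] [Fintype K] [Algebra k K]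
    (h2 : Fintype.card K = Fintype.card k ^ 2) {θ : K} (hθ : ∀ x : k, algebraMap k K x ≠ θ) {l : ℕ}
    (hcop : Nat.Coprime l (Fintype.card k + 1)) {A B : k[X]}
    (hAB : (X - C θ) ^ l = A.map (algebraMap k K) - C θ * B.map (algebraMap k K)) :
    (∀ x x' : k, A.eval x * B.eval x' = A.eval x' * B.eval x → x = x') ∧
      ∀ x : k, B.eval x ≠ 0 := by
  have hE : ∀ x : k, (algebraMap k K x - θ) ^ l =
      algebraMap k K (A.eval x) - θ * algebraMap k K (B.eval x) := by
    intro x
    have h := congrArg (Polynomial.eval (algebraMap k K x)) hAB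
    rw [Polynomial.eval_pow, Polynomial.eval_sub, Polynomial.eval_X, Polynomial.eval_C,
      Polynomial.eval_sub, Polynomial.eval_mul, Polynomial.eval_C, Polynomial.eval_map,
      Polynomial.eval_map, Polynomial.eval₂_at_apply, Polynomial.eval₂_at_apply] at h
    exact h
  have hne : ∀ x : k, algebraMap k K x - θ ≠ 0 := fun x h => hθ x (sub_eq_zero.1 h)
  have hB : ∀ x : k, B.eval x ≠ 0 := by
    intro x hx
    have h := hE x
    rw [hx, map_zero, mul_zero, sub_zero] at h
    obtain ⟨y, hy⟩ := redb_key h2 hcop (hne x) h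
    apply hθ (x - y)
    rw [map_sub, hy]
    ring
  refine ⟨?_, hB⟩
  intro x x' hxx
  obtain ⟨s, hs⟩ : ∃ s : k, s = B.eval x / B.eval x' := ⟨_, rfl⟩
  have hBs : B.eval x = s * B.eval x' := by
    rw [hs, div_mul_cancel₀ _ (hB x')]
  have hAs : A.eval x = s * A.eval x' := by
    apply mul_right_cancel₀ (hB x')
    rw [hxx, hBs]
    ring
  have h3 : ((algebraMap k K x - θ) / (algebraMap k K x' - θ)) ^ l = algebraMap k K s := by
    have h4 : (algebraMap k K x' - θ) ^ l ≠ 0 := pow_ne_zero _ (hne x')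
    rw [div_pow, div_eq_iff h4, hE x, hE x', hBs, hAs, map_mul, map_mul]
    ring
  obtain ⟨y, hy⟩ := redb_key h2 hcop (div_ne_zero (hne x) (hne x')) h3
  have h5 : algebraMap k K x - θ = algebraMap k K y * (algebraMap k K x' - θ) := by
    rw [hy, div_mul_cancel₀ _ (hne x')]
  by_cases hy1 : y = 1
  · rw [hy1, map_one, one_mul] at h5
    exact (algebraMap k K).injective (sub_left_injective h5)
  · exfalso
    have hy2 : y - 1 ≠ 0 := sub_ne_zero.2 hy1
    apply hθ ((y * x' - x) / (y - 1))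
    rw [map_div₀, map_sub, map_sub, map_mul, map_one]
    have hy3 : algebraMap k K y - 1 ≠ 0 := by
      intro h
      apply hy2
      apply (algebraMap k K).injective
      rw [map_sub, map_one, map_zero, h]
    rw [div_eq_iff hy3]
    linear_combination (-1 : K) * h5

end Pool.Agent.H45.VM
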