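import Mathlib

/-!
# Ramification of the functions of Redei

PROOF. Let `σ : x ↦ x ^ q` be the Frobenius automorphism of `K` over `k` (`q = card k`, `card K = q²`; `FiniteField.frobeniusAlgEquivOfAlgebraic` or
the ring homomorphism `x ↦ x ^ q`), `θ' = θ ^ q ≠ θ`. Apply it to the coefficients: `(X - θ') ^ l = A - θ' B` over `K`. Work in `K[X]`, `A`, `B`
mapped: `U = A - θ B = (X - θ) ^ l`, `U' = A - θ' B = (X - θ') ^ l`; the derivatives (`'` on the right) satisfy
`dU U' - U dU' = (θ - θ') (dA B - A dB)` (`ring` after expanding), and the left side is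
`l (X - θ) ^ (l-1) (X - θ') ^ l - l (X - θ) ^ l (X - θ') ^ (l-1) = l (X - θ) ^ (l-1) (X - θ') ^ (l-1) (θ - θ')`. So
`dA B - A dB = l ((X - θ) (X - θ')) ^ (l - 1)` in `K[X]` (cancel `C (θ - θ') ≠ 0`), which is `red_wron`.
`red_ram`: now `Ω` is an algebraically closed (any) field over `K`, `z ∈ Ω` a zero of `dA B - A dB` (in `Ω`), so `z = θ` or `z = θ'` (`l ≠ 0`). From
`(z - θ) ^ l = A(z) - θ B(z)`: if `z = θ`: `A(z) = θ B(z)`, and `B(z) ≠ 0`, because otherwise `A(z) = 0` and
`(z - θ') ^ l = A(z) - θ' B(z) = 0`, `θ = θ'`. If `z = θ'`, in the same way `A(z) = θ' B(z)`, `B(z) ≠ 0`.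
-/

namespace Pool.Agent.H45.VM

open Finset Polynomial

variable {k : Type} [Field k] [Fintype k]

private theorem redC_frob_ne {K : Type} [Field K] [Fintype K] [Algebra k K] {θ : K}
    (hθ : ∀ x : k, algebraMap k K x ≠ θ) : θ ^ Fintype.card k ≠ θ := by
  classical
  intro h
  have hne : (X ^ Fintype.card k - X : K[X]) ≠ 0 :=
    FiniteField.X_pow_card_sub_X_ne_zero K Fintype.one_lt_card
  have hcard : (X ^ Fintype.card k - X : K[X]).roots.toFinset.card ≤ Fintype.card k := by
    refine (Multiset.toFinset_card_le _).trans ((card_roots' _).trans ?_)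
    exact (FiniteField.X_pow_card_sub_X_natDegree_eq K Fintype.one_lt_card).le
  have hsub : (univ : Finset k).image (algebraMap k K) ⊆
      (X ^ Fintype.card k - X : K[X]).roots.toFinset := by
    intro y hy
    obtain ⟨x, -, rfl⟩ := Finset.mem_image.1 hy
    rw [Multiset.mem_toFinset, mem_roots hne, IsRoot.def, eval_sub, eval_pow, eval_X, ← map_pow,
      FiniteField.pow_card, sub_self]
  have hcard2 : ((univ : Finset k).image (algebraMap k K)).card = Fintype.card k := by
    rw [Finset.card_image_of_injective _ (algebraMap k K).injective, Finset.card_univ]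
  have heq := Finset.eq_of_subset_of_card_le hsub (by rw [hcard2]; exact hcard)
  have hmem : θ ∈ (univ : Finset k).image (algebraMap k K) := by
    rw [heq, Multiset.mem_toFinset, mem_roots hne, IsRoot.def, eval_sub, eval_pow, eval_X, h,
      sub_self]
  obtain ⟨x, -, hx⟩ := Finset.mem_image.1 hmem
  exact hθ x hx

private theorem redC_conj {K : Type} [Field K] [Algebra k K] {θ : K} {l : ℕ} {A B : k[X]}
    (hAB : (X - C θ) ^ l = A.map (algebraMap k K) - C θ * B.map (algebraMap k K)) :
    (X - C (θ ^ Fintype.card k)) ^ l = A.map (algebraMap k K) -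
      C (θ ^ Fintype.card k) * B.map (algebraMap k K) := by
  have h := congrArg (Polynomial.map (FiniteField.frobeniusAlgHom k K : K →+* K)) hAB
  have hc : (FiniteField.frobeniusAlgHom k K : K →+* K).comp (algebraMap k K) = algebraMap k K :=
    (FiniteField.frobeniusAlgHom k K).comp_algebraMap
  rw [Polynomial.map_pow, Polynomial.map_sub, Polynomial.map_X, Polynomial.map_C,
    Polynomial.map_sub, Polynomial.map_mul, Polynomial.map_C, Polynomial.map_map,
    Polynomial.map_map, hc] at h
  exact h

theorem red_ram {K Ω : Type} [Field K] [Fintype K] [Algebra k K] [Field Ω] [Algebra k Ω]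
    [Algebra K Ω] [IsScalarTower k K Ω] (h2 : Fintype.card K = Fintype.card k ^ 2) {θ : K}
    (hθ : ∀ x : k, algebraMap k K x ≠ θ) {l : ℕ} (hl : 2 ≤ l) (hlk : (l : k) ≠ 0) {A B : k[X]}
    (hAB : (X - C θ) ^ l = A.map (algebraMap k K) - C θ * B.map (algebraMap k K)) (z : Ω)
    (hz : aeval z (derivative A * B - A * derivative B) = 0) :
    aeval z B ≠ 0 ∧ (aeval z A = algebraMap K Ω θ * aeval z B ∨
      aeval z A = algebraMap K Ω (θ ^ Fintype.card k) * aeval z B) := by
  have hne := redC_frob_ne hθ
  have hAB' := redC_conj hAB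
  set θ' : K := θ ^ Fintype.card k with hθ'
  set t : Ω := algebraMap K Ω θ with ht
  set t' : Ω := algebraMap K Ω θ' with ht'
  have htne : t' ≠ t := fun h => hne ((algebraMap K Ω).injective h)
  have hlΩ : (l : Ω) ≠ 0 := by
    intro h
    apply hlk
    apply (algebraMap k Ω).injective
    rw [map_natCast, map_zero, h]
  -- values at z
  have hev : ∀ P : k[X], (P.map (algebraMap k K)).eval₂ (algebraMap K Ω) z = aeval z P := by
    intro P
    rw [Polynomial.eval₂_map, ← IsScalarTower.algebraMap_eq k K Ω, aeval_def]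
  have key : ∀ s : K, (X - C s) ^ l = A.map (algebraMap k K) - C s * B.map (algebraMap k K) →
      (z - algebraMap K Ω s) ^ l = aeval z A - algebraMap K Ω s * aeval z B ∧
      (l : Ω) * (z - algebraMap K Ω s) ^ (l - 1) =
        aeval z (derivative A) - algebraMap K Ω s * aeval z (derivative B) := by
    intro s hs
    constructor
    · have h := congrArg (fun P : K[X] => P.eval₂ (algebraMap K Ω) z) hs
      simp only [eval₂_pow, eval₂_sub, eval₂_X, eval₂_C, eval₂_mul, hev] at h
      exact h
    · have h := congrArg (fun P : K[X] => (derivative P).eval₂ (algebraMap K Ω) z) hs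
      simp only [derivative_X_sub_C_pow, derivative_sub, derivative_C_mul, derivative_map,
        eval₂_mul, eval₂_pow, eval₂_sub, eval₂_X, eval₂_C, hev, map_natCast, eval₂_natCast] at h
      exact h
  obtain ⟨h1, h2'⟩ := key θ hAB
  obtain ⟨h3, h4⟩ := key θ' hAB'
  have hzz : aeval z (derivative A) * aeval z B - aeval z A * aeval z (derivative B) = 0 := by
    rw [map_sub, map_mul, map_mul] at hz
    exact hz
  have hl1 : l = (l - 1) + 1 := by omega
  have hprod : (l : Ω) * ((z - t) ^ (l - 1) * (z - t') ^ (l - 1)) * (t - t') = 0 := by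
    have e1 : (l : Ω) * (z - t) ^ (l - 1) * (z - t') ^ l - (z - t) ^ l * ((l : Ω) * (z - t') ^ (l - 1)) =
        (t - t') * (aeval z (derivative A) * aeval z B - aeval z A * aeval z (derivative B)) := by
      rw [h1, h2', h3, h4]
      ring
    rw [hzz, mul_zero] at e1
    rw [← e1]
    have e2 : (z - t) ^ l = (z - t) ^ (l - 1) * (z - t) := by
      conv_lhs => rw [hl1]
      rw [pow_succ]
    have e3 : (z - t') ^ l = (z - t') ^ (l - 1) * (z - t') := by
      conv_lhs => rw [hl1]
      rw [pow_succ]
    rw [e2, e3]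
    ring
  have hcases : z = t ∨ z = t' := by
    rcases mul_eq_zero.1 hprod with h | h
    · rcases mul_eq_zero.1 h with h | h
      · exact absurd h hlΩ
      · rcases mul_eq_zero.1 h with h | h
        · exact Or.inl (sub_eq_zero.1 (pow_eq_zero_iff (by omega) |>.1 h))
        · exact Or.inr (sub_eq_zero.1 (pow_eq_zero_iff (by omega) |>.1 h))
    · exact absurd (sub_eq_zero.1 h).symm htne
  have hl0 : l ≠ 0 := by omega
  rcases hcases with hzt | hzt
  · have hA : aeval z A = t * aeval z B := by
      rw [← ht, hzt, sub_self, zero_pow hl0] at h1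
      rw [hzt]
      exact (sub_eq_zero.1 h1.symm)
    refine ⟨fun hB => ?_, Or.inl hA⟩
    have h5 : (z - t') ^ l = 0 := by
      have h6 := h3
      rw [hA, hB, mul_zero, mul_zero, sub_self] at h6
      exact h6
    have h7 := sub_eq_zero.1 (pow_eq_zero_iff hl0 |>.1 h5)
    exact htne (h7.symm.trans hzt)
  · have hA : aeval z A = t' * aeval z B := by
      rw [← ht', hzt, sub_self, zero_pow hl0] at h3
      rw [hzt]
      exact (sub_eq_zero.1 h3.symm)
    refine ⟨fun hB => ?_, Or.inr hA⟩
    have h5 : (z - t) ^ l = 0 := by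
      have h6 := h1
      rw [hA, hB, mul_zero, mul_zero, sub_self] at h6
      exact h6
    have h7 := sub_eq_zero.1 (pow_eq_zero_iff hl0 |>.1 h5)
    exact htne (hzt.symm.trans h7)

end Pool.Agent.H45.VM
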