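import Pool.Agent.H45.VM.NonB
import Pool.Agent.H45.VM.RedA
import Pool.Agent.H45.VM.RedB
import Pool.Agent.H45.VM.RedC

/-!
# Redei functions are admissible

PROOF. `K` a quadratic extension of `k` (`q` elements): a subfield of `AlgebraicClosure k` or `GaloisField`, `AdjoinRoot` of an irreducible
quadratic polynomial; it must map to `AlgebraicClosure k` over `k` (`IsAlgClosed.lift`, put the algebra structure
`(lift).toRingHom.toAlgebra` and the scalar tower). E.g. `K = FiniteField.Extension k 2` if available in Mathlib, or the `IntermediateField` of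
elements of degree dividing `2`, or `AdjoinRoot f` with `f` irreducible monic of degree `2` over `k`. `S` = the elements of `K` not in `k`, `q² - q`
of them, `q² - q > 2 g + 2` (`q ≥ 2 g + 3 ≥ 5`). `exists_nb` gives `θ ∈ S` with `dsc C θ 1 ≠ 0`. `A`, `B` from `exists_split`. `Exc`: `red_inj`
(`inf`: `A(x) * 0 ≠ 1 * B(x)`). `unram`: `red_ram` (`Ω = AlgebraicClosure k`): `(A(z), B(z)) = B(z) (t, 1)` with `t = θ` or `θ ^ q`, and
`dsc C (B(z) t) (B(z)) = B(z) ^ (2 g + 2) dsc C t 1` (`dsc_smul`), `dsc C t 1 ≠ 0` for `t = θ` by `dsc_map` and injectivity; for `t = θ ^ q`: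
the `q`-th power map is an algebra endomorphism of `K` over `k`, so `dsc C (θ ^ q) 1 = (dsc C θ 1) ^ q ≠ 0` (`dsc_map` for
`FiniteField.frobeniusAlgHom k K`). `unram_inf`: `A_(l-1) B_l - A_l B_(l-1) = - l ≠ 0`, the hypothesis is impossible.
-/

namespace Pool.Agent.H45.VM

open Finset Polynomial Pool.Agent.H35.VQ

variable {k : Type} [Field k] {g : ℕ}

theorem adm_red [Fintype k] (C : Hyp k g) (hg : 1 ≤ g) (hq : 2 * g + 3 ≤ Fintype.card k) (l : ℕ)
    (hl : 2 ≤ l) (hcop : Nat.Coprime l (Fintype.card k + 1)) (hlk : (l : k) ≠ 0) :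
    ∃ A B : k[X], Adm C l A B := by
  classical
  obtain ⟨p, hp⟩ := CharP.exists k
  haveI : Fact p.Prime := ⟨CharP.char_is_prime k p⟩
  let K : Type := FiniteField.Extension k p 2
  letI : Fintype K := Fintype.ofFinite K
  have hfin : Module.finrank k K = 2 := FiniteField.finrank_extension k p 2
  have hcard : Fintype.card K = Fintype.card k ^ 2 := by
    rw [Fintype.card_eq_nat_card, FiniteField.natCard_extension, Nat.card_eq_fintype_card]
  haveI : Algebra.IsAlgebraic k K := Algebra.IsAlgebraic.of_finite k K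
  let ψ : K →ₐ[k] AlgebraicClosure k := IsAlgClosed.lift
  letI : Algebra K (AlgebraicClosure k) := ψ.toRingHom.toAlgebra
  haveI : IsScalarTower k K (AlgebraicClosure k) :=
    IsScalarTower.of_algebraMap_eq fun x => (ψ.commutes x).symm
  have hinjψ : Function.Injective ψ := ψ.toRingHom.injective
  obtain ⟨S, hSdef⟩ : ∃ S : Finset K, S = (Finset.univ.image (algebraMap k K))ᶜ := ⟨_, rfl⟩
  have hS : 2 * g + 2 < S.card := by
    have h1 : (Finset.univ.image (algebraMap k K)).card ≤ Fintype.card k := by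
      refine Finset.card_image_le.trans ?_
      rw [Finset.card_univ]
    have h2 : S.card = Fintype.card k ^ 2 - (Finset.univ.image (algebraMap k K)).card := by
      rw [hSdef, Finset.card_compl, hcard]
    have h3 : 2 * Fintype.card k ≤ Fintype.card k * Fintype.card k :=
      Nat.mul_le_mul_right _ (by omega)
    rw [h2, pow_two]
    omega
  obtain ⟨θ, hθS, hθ⟩ := exists_nb C hg S hS
  have hθk : ∀ x : k, algebraMap k K x ≠ θ := by
    intro x hx
    rw [hSdef, Finset.mem_compl] at hθS
    exact hθS (Finset.mem_image.2 ⟨x, Finset.mem_univ _, hx⟩)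
  obtain ⟨A, B, hA, hB, hAB, hA1, hB1, hA2, hB2⟩ := exists_split hfin hθk (by omega : 1 ≤ l)
  obtain ⟨hinj, hB0⟩ := red_inj hcard hθk hcop hAB
  have key : ∀ (t : K) (z : AlgebraicClosure k), dsc C t 1 ≠ 0 → aeval z B ≠ 0 →
      aeval z A = algebraMap K (AlgebraicClosure k) t * aeval z B →
      dsc C (aeval z A) (aeval z B) ≠ 0 := by
    intro t z ht hBz hAz
    have h1 : dsc C (aeval z A) (aeval z B) =
        (aeval z B) ^ (2 * g + 2) * dsc C (ψ t) (ψ 1) := by
      rw [← dsc_smul, map_one, mul_one, hAz, mul_comm]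
      rfl
    rw [h1, ← dsc_map]
    refine mul_ne_zero (pow_ne_zero _ hBz) fun h => ht ?_
    exact hinjψ (by rw [h, map_zero])
  have hθq : dsc C (θ ^ Fintype.card k) 1 ≠ 0 := by
    have h1 := dsc_map C (FiniteField.frobeniusAlgHom k K) θ 1
    rw [map_one] at h1
    have h2 : (FiniteField.frobeniusAlgHom k K) θ = θ ^ Fintype.card k := by
      rw [FiniteField.coe_frobeniusAlgHom]
    rw [h2] at h1
    rw [← h1]
    intro h
    apply hθ
    exact (FiniteField.frobeniusAlgHom k K).toRingHom.injective (by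
      rw [map_zero]
      exact h)
  refine ⟨A, B, ⟨⟨hA, hB, hinj, ?_⟩, ?_, ?_⟩⟩
  · intro x
    rw [hB1, hA1, mul_zero, one_mul]
    exact (hB0 x).symm
  · intro z hz
    obtain ⟨hBz, hAz | hAz⟩ := red_ram hcard hθk hl hlk hAB z hz
    · exact key θ z hθ hBz hAz
    · exact key _ z hθq hBz hAz
  · intro h
    rw [hA2, hB1, hA1, hB2] at h
    exfalso
    apply hlk
    simpa using h

end Pool.Agent.H45.VM
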