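import Pool.Agent.H35.VQ.Exact2
import Pool.Agent.H35.VQ.Exact4
import Pool.Agent.H45.VM.Pul
import Pool.Agent.H45.VM.Pts
import Pool.Agent.H45.VM.Pow
import Pool.Agent.H45.VM.Lin
import Pool.Agent.H45.VM.LinE
import Pool.Agent.H45.VM.Red
import Pool.Agent.H45.VM.Four

/-!
# One step

PROOF. `q = card k`, `G + 1 = n (g + 1)`, so `G = n (g + 1) - 1` (`obtain rfl`). If an admissible pair of degree `n` exists, `pullback` and
`numPoints_pullback` finish (`stp_of_adm`).
`2 g + 3 ≤ q`: `n = l` an odd prime: if `l = 0` in `k` then `l` is the characteristic (`CharP.exists`, primes) and `exists_lin_odd`, `adm_lin` apply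
(`2 ≤ l`); otherwise `l` is prime to `q - 1` (`adm_pow`) or `l ∣ q - 1`, and then `l` does not divide `q + 1` (the difference is `2`), `adm_red`.
`n = 4`, `2 ≠ 0`: `adm_four`. `n = 2 ^ j`, `j ≥ 2`, `2 = 0`: `exists_lin_two`, `adm_lin`.
`q ≤ 2 g + 2`: `N = numPoints C ≤ 2 q + 2` (`numPoints_le`) and every such number occurs in genus `G` (`n ≥ 3`):
`2 ≠ 0`: `exact_odd`: `q` is odd, so `q ≤ 2 g + 1`, `q + 2 p ≤ 3 q ≤ 6 g + 3 ≤ 2 G + 1` (`p = ringChar k ≤ q`, it divides `q`; `G + 1 ≥ 3 (g + 1)`);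
`2 = 0`: `exact_two`: `2 ^ q ≤ 2 ^ (2 g + 2) ≤ 2 ^ (G - 1) ≤ q ^ (G - 1)` (`G - 1 ≥ 3 g + 1 ≥ 2 g + 2`).
-/

namespace Pool.Agent.H45.VM

open Finset Polynomial Pool.Agent.H35.VQ

variable {k : Type} [Field k] [Fintype k] {g : ℕ}

theorem stp_of_adm (C : Hyp k g) {n : ℕ} (hn : 1 ≤ n) {G : ℕ} (hG : G + 1 = n * (g + 1))
    (h : ∃ A B : k[X], Adm C n A B) : ∃ C' : Hyp k G, C'.numPoints = C.numPoints := by
  obtain ⟨A, B, E⟩ := h
  obtain rfl : G = n * (g + 1) - 1 := by omega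
  obtain ⟨C', h1, h2⟩ := pullback C hn E
  exact ⟨C', numPoints_pullback C hn E.exc C' h1 h2⟩

theorem stp_big (C : Hyp k g) (hg : 1 ≤ g) (hq : Fintype.card k ≤ 2 * g + 2) {n : ℕ} (hn : 3 ≤ n)
    {G : ℕ} (hG : G + 1 = n * (g + 1)) : ∃ C' : Hyp k G, C'.numPoints = C.numPoints := by
  classical
  have hN := numPoints_le C
  have h1 : 3 * (g + 1) ≤ G + 1 := by
    rw [hG]
    exact Nat.mul_le_mul_right _ hn
  have hq2 : 2 ≤ Fintype.card k := Fintype.one_lt_card
  by_cases h2 : (2 : k) = 0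
  · refine exact_two h2 G ?_ _ hN
    calc 2 ^ Fintype.card k ≤ 2 ^ (2 * g + 2) := Nat.pow_le_pow_right (by norm_num) hq
      _ ≤ 2 ^ (G - 1) := Nat.pow_le_pow_right (by norm_num) (by omega)
      _ ≤ Fintype.card k ^ (G - 1) := Nat.pow_le_pow_left hq2 _
  · refine exact_odd h2 G ?_ _ hN
    have hp : (ringChar k).Prime := CharP.char_is_prime k (ringChar k)
    obtain ⟨m, _, hm⟩ := FiniteField.card k (ringChar k)
    have hne : ringChar k ≠ 2 := by
      intro h
      apply h2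
      have := ringChar.Nat.cast_ringChar (R := k)
      rw [h] at this
      exact_mod_cast this
    have hodd : Odd (Fintype.card k) := by
      rw [hm]
      exact (hp.odd_of_ne_two hne).pow
    have hle : ringChar k ≤ Fintype.card k := by
      rw [hm]
      exact Nat.le_self_pow m.ne_zero _
    obtain ⟨r, hr⟩ := hodd
    omega

theorem stp_prime (C : Hyp k g) (hg : 1 ≤ g) {l : ℕ} (hl : l.Prime) (hodd : Odd l) {G : ℕ}
    (hG : G + 1 = l * (g + 1)) : ∃ C' : Hyp k G, C'.numPoints = C.numPoints := by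
  have h3 : 3 ≤ l := by
    have h4 := hl.two_le
    obtain ⟨r, hr⟩ := hodd
    omega
  by_cases hq : Fintype.card k ≤ 2 * g + 2
  · exact stp_big C hg hq h3 hG
  have hq' : 2 * g + 3 ≤ Fintype.card k := by omega
  refine stp_of_adm C (by omega) hG ?_
  by_cases hl0 : (l : k) = 0
  · have h4 : ringChar k ∣ l := (ringChar.spec k l).1 hl0
    have h5 : ringChar k = l := by
      rcases (Nat.dvd_prime hl).1 h4 with h6 | h6
      · exact absurd h6 (CharP.char_is_prime k (ringChar k)).one_lt.ne'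
      · exact h6
    have : CharP k l := ringChar.of_eq h5
    obtain ⟨L, c, e1, e2, e3, e4, e5⟩ := exists_lin_odd (k := k) l hl hodd
    exact adm_lin C hg hq' hl.two_le L e1 e2 e3 e4 e5
  · rcases Nat.coprime_or_dvd_of_prime hl (Fintype.card k - 1) with h4 | h4
    · exact adm_pow C hg hq' l hl.two_le h4 hl0
    · refine adm_red C hg hq' l hl.two_le ?_ hl0
      rcases Nat.coprime_or_dvd_of_prime hl (Fintype.card k + 1) with h5 | h5
      · exact h5
      · exfalso
        have h6 := Nat.dvd_sub h5 h4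
        have h7 : Fintype.card k + 1 - (Fintype.card k - 1) = 2 := by omega
        rw [h7] at h6
        have h8 := Nat.le_of_dvd (by norm_num) h6
        omega

private theorem Stp_two (C : Hyp k g) (hg : 1 ≤ g) (h2 : (2 : k) = 0) {j : ℕ} (hj : 2 ≤ j) {G : ℕ}
    (hG : G + 1 = 2 ^ j * (g + 1)) : ∃ C' : Hyp k G, C'.numPoints = C.numPoints := by
  have h4 : 4 ≤ 2 ^ j := by
    calc 4 = 2 ^ 2 := by norm_num
      _ ≤ 2 ^ j := Nat.pow_le_pow_right (by norm_num) hj
  by_cases hq : Fintype.card k ≤ 2 * g + 2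
  · exact stp_big C hg hq (by omega) hG
  have hq' : 2 * g + 3 ≤ Fintype.card k := by omega
  refine stp_of_adm C (by omega) hG ?_
  have : CharP k 2 := by
    have h5 : ringChar k ∣ 2 := (ringChar.spec k 2).1 (by exact_mod_cast h2)
    rcases (Nat.dvd_prime Nat.prime_two).1 h5 with h6 | h6
    · exact absurd h6 (CharP.char_is_prime k (ringChar k)).one_lt.ne'
    · exact ringChar.of_eq h6
  obtain ⟨L, c, e1, e2, e3, e4, e5⟩ := exists_lin_two (k := k) hj
  exact adm_lin C hg hq' (by omega) L e1 e2 e3 e4 e5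

theorem stp_four (C : Hyp k g) (hg : 1 ≤ g) {G : ℕ} (hG : G + 1 = 4 * (g + 1)) :
    ∃ C' : Hyp k G, C'.numPoints = C.numPoints := by
  by_cases hq : Fintype.card k ≤ 2 * g + 2
  · exact stp_big C hg hq (by norm_num) hG
  by_cases h2 : (2 : k) = 0
  · exact Stp_two C hg h2 (le_refl 2) (by rw [hG]; norm_num)
  · exact stp_of_adm C (by norm_num) hG (adm_four C hg (by omega) h2)

theorem stp_two (C : Hyp k g) (hg : 1 ≤ g) (h2 : (2 : k) = 0) {j : ℕ} (hj : 2 ≤ j) {G : ℕ}
    (hG : G + 1 = 2 ^ j * (g + 1)) : ∃ C' : Hyp k G, C'.numPoints = C.numPoints :=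
  Stp_two C hg h2 hj hG

end Pool.Agent.H45.VM
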